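import Pool.Agent.TH862.SN.DefsP

/-!
# Numerically trivial cycles of dimension `p` over finite fields: definitions
-/

open CategoryTheory AlgebraicGeometry

universe u v w

namespace Pool.Agent.TH862.SN

open Pool.Agent.H914 Pool.Agent.H914.VarClass Pool.Agent.H914.VarClass.Obj Pool.Agent.W492.BB
  Pool.Agent.W550.Corr Pool.Agent.TH133

variable {k : Type u} [Field k] {𝒱 : VarClass k}

/-- Rational and numerical equivalence agree for the cycles of dimension `p` on `X`: the numerically
trivial classes in `CH^(dim X - p)(X)` are zero. -/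
def NumZero (C : TheoryData.{u, v, 0} 𝒱 ℚ) (p : ℕ) (X : 𝒱.Obj) : Prop :=
  ∀ z : C.A X, NumTrivial C (X.dim - p) z → z = 0

variable {C : TheoryData.{u, v, 0} 𝒱 ℚ} {K : Type w} [Field K]

/-- The Kunneth projectors of all varieties are algebraic (over finite fields: Katz and Messing):
for all `X` and `m` some correspondence in `CH^(dim X)(X × X)` is the identity on `H^m(X)` and zero
on `H^l(X)`, `l ≠ m`. -/
def HasKunneth (H : WeilTheoryData.{u, v, w} C K) : Prop :=
  ∀ (X : 𝒱.Obj) (m : ℕ), ∃ π : C.A (X.prod X), C.Deg X.dim π ∧ ∀ (l : ℤ) (a : H.A X),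
    H.Deg l a → H.act (H.cl π) a = if l = m then a else 0

end Pool.Agent.TH862.SN
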