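import Pool.Agent.TH862.SN.DefsCT

/-!
# Rational and numerical equivalence over finite fields: definitions
-/

open CategoryTheory AlgebraicGeometry

universe u v w

namespace Pool.Agent.TH862.SN

open Pool.Agent.H914 Pool.Agent.H914.VarClass Pool.Agent.H914.VarClass.Obj Pool.Agent.W492.BB
  Pool.Agent.W550.Corr Pool.Agent.TH133

variable {k : Type u} [Field k] {𝒱 : VarClass k}

/-- `CH^n(X)` is finite-dimensional. -/
def FiniteChow (C : TheoryData.{u, v, 0} 𝒱 ℚ) (X : 𝒱.Obj) (n : ℤ) : Prop :=
  FiniteDimensional ℚ (C.gr X n)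

/-- The intersection pairing `CH^n(X) × CH^(dim X - n)(X) ⟶ ℚ` is perfect: both spaces are
finite-dimensional, and for every linear form `φ` (on `CH^(dim X - n)(X)`, or on all of `CH^*(X)`,
which amounts to the same) there is exactly one class `a` in `CH^n(X)` such that
`deg (a · b) = φ b` for all `b` in `CH^(dim X - n)(X)`. -/
def PerfectPairing (C : TheoryData.{u, v, 0} 𝒱 ℚ) (X : 𝒱.Obj) (n : ℤ) : Prop :=
  FiniteChow C X n ∧ FiniteChow C X (X.dim - n) ∧
    ∀ φ : C.A X →ₗ[ℚ] ℚ, ∃! a : C.A X, C.Deg n a ∧
      ∀ b : C.A X, C.Deg (X.dim - n) b → HasDegree C (a * b) (φ b)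

/-- Every `1`-cycle is a linear combination of classes `f_* [D]`, `f : D ⟶ X` a morphism from a
smooth projective curve (the normalization of its image). -/
def SpannedByCurves (C : TheoryData.{u, v, 0} 𝒱 ℚ) : Prop :=
  ∀ (X : 𝒱.Obj) (z : C.A X), C.Deg (X.dim - 1) z →
    z ∈ Submodule.span ℚ {y : C.A X | ∃ (D : 𝒱.Obj) (f : D ⟶ X), D.dim = 1 ∧ y = C.push f 1}

/-- Known facts on cycles over the algebraic closure of a finite field:

* every `1`-cycle is a linear combination of classes `f_* [D]`, `f : D ⟶ X` a morphism from a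
  smooth projective curve (the normalization of its image);
* zero-cycles of degree zero are torsion, hence zero with rational coefficients;
* the modified diagonal of a curve `D`, a `1`-cycle on `D × D × D`, with respect to some zero-cycle
  of degree one, is zero with rational coefficients (Soulé);
* `CH^1(X)` is finite-dimensional, and numerically trivial divisors are zero with rational
  coefficients (Matsusaka, and `Pic^0` is torsion). -/
structure HasFiniteFieldFacts (C : TheoryData.{u, v, 0} 𝒱 ℚ) : Prop where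
  oneCycles : SpannedByCurves C
  zeroCycles : ∀ (X : 𝒱.Obj) (x : C.A X), C.Deg X.dim x → HasDegree C x 0 → x = 0
  modifiedDiagonal : ∀ D : 𝒱.Obj, D.dim = 1 → ∃ o : C.A D, C.Deg 1 o ∧ HasDegree C o 1 ∧
    modDiag C D o = 0
  finite : ∀ X : 𝒱.Obj, FiniteChow C X 1
  divisors : ∀ (X : 𝒱.Obj) (a : C.A X), NumTrivial C 1 a → a = 0

end Pool.Agent.TH862.SN
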