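import Pool.Agent.TH862.SN.Gen
import Pool.Agent.TH862.SN.DefsFF
import Mathlib.LinearAlgebra.PerfectPairing.Basic

/-!
# Rational and numerical equivalence over finite fields: `1`-cycles on products
-/

open CategoryTheory AlgebraicGeometry

universe u v w

namespace Pool.Agent.TH862.SN

open Pool.Agent.H914 Pool.Agent.H914.VarClass Pool.Agent.H914.VarClass.Obj Pool.Agent.W492.BB
  Pool.Agent.W550.Corr Pool.Agent.TH133

set_option linter.unusedSectionVars false

variable {k : Type u} [Field k] {𝒱 : VarClass k}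

variable {C : TheoryData.{u, v, 0} 𝒱 ℚ} [hC : IsChowProj C] {K : Type w} [Field K]
  [CharZero K] {H : WeilTheoryData.{u, v, w} C K} [hH : IsWeilProj H] {X Y : 𝒱.Obj}

variable (C) in
/-- The zero ideal. -/
noncomputable def zeroIdeal : CycleIdeal C where
  I _ := ⊥
  push_mem f a ha := by
    rw [Submodule.mem_bot] at ha ⊢
    rw [ha, map_zero]
  pull_mem f a ha := by
    rw [Submodule.mem_bot] at ha ⊢
    rw [ha, map_zero]
  mul_mem b a ha := by
    rw [Submodule.mem_bot] at ha ⊢
    rw [ha, mul_zero]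

include hC

/-- The degree as a linear form on a space of zero-cycles; existence of the bilinear pairing. -/
lemma exists_pairing (H : WeilTheoryData.{u, v, w} C K) [hH : IsWeilProj H] {i j : ℤ}
    (hij : i + j = X.dim) : ∃ p : C.gr X i →ₗ[ℚ] C.gr X j →ₗ[ℚ] ℚ,
      ∀ (a : C.gr X i) (b : C.gr X j), HasDegree C ((a : C.A X) * (b : C.A X)) (p a b) := by
  classical
  have h1 : ∀ (a : C.gr X i) (b : C.gr X j), ∃ q, HasDegree C ((a : C.A X) * (b : C.A X)) q := by
    intro a b
    apply exists_hasDegree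
    have := C.mul_mem a.2 b.2
    rwa [hij] at this
  choose f hf using h1
  refine ⟨LinearMap.mk₂ ℚ f ?_ ?_ ?_ ?_, fun a b => hf a b⟩
  · intro a a' b
    refine hasDegree_unique H (hf (a + a') b) ?_
    have h := hasDegree_add (hf a b) (hf a' b)
    rwa [← add_mul] at h
  · intro c a b
    refine hasDegree_unique H (hf (c • a) b) ?_
    have h := hasDegree_smul c (hf a b)
    rwa [← smul_mul_assoc] at h
  · intro a b b'
    refine hasDegree_unique H (hf a (b + b')) ?_
    have h := hasDegree_add (hf a b) (hf a b')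
    rwa [← mul_add] at h
  · intro c a b
    refine hasDegree_unique H (hf a (c • b)) ?_
    have h := hasDegree_smul c (hf a b)
    rwa [← mul_smul_comm] at h

/-- A criterion for a perfect pairing. -/
lemma perfect_of (H : WeilTheoryData.{u, v, w} C K) [hH : IsWeilProj H] {n : ℤ}
    (hf : FiniteChow C X n ∨ FiniteChow C X (X.dim - n))
    (h1 : ∀ a : C.A X, NumTrivial C n a → a = 0)
    (h2 : ∀ a : C.A X, NumTrivial C (X.dim - n) a → a = 0) : PerfectPairing C X n := by
  obtain ⟨p, hp⟩ := exists_pairing (X := X) H (i := n) (j := X.dim - n) (by ring)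
  have i1 : Function.Injective p := by
    rw [injective_iff_map_eq_zero]
    intro a ha
    apply Subtype.ext
    refine h1 _ ⟨a.2, fun b hb => ?_⟩
    have h := hp a ⟨b, hb⟩
    rwa [ha, LinearMap.zero_apply] at h
  have i2 : Function.Injective p.flip := by
    rw [injective_iff_map_eq_zero]
    intro b hb
    apply Subtype.ext
    refine h2 _ ⟨b.2, fun a ha => ?_⟩
    have ha' : C.Deg n a := by
      have e : (X.dim : ℤ) - (X.dim - n) = n := by ring
      rwa [e] at ha
    have h := hp ⟨a, ha'⟩ b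
    have h3 : p ⟨a, ha'⟩ b = 0 := by
      rw [← LinearMap.flip_apply, hb, LinearMap.zero_apply]
    rw [h3] at h
    rwa [ch_comm C] at h
  have hperf : p.IsPerfPair := by
    rcases hf with hf | hf
    · have : FiniteDimensional ℚ (C.gr X n) := hf
      exact LinearMap.IsPerfPair.of_injective i1 i2
    · have : FiniteDimensional ℚ (C.gr X (X.dim - n)) := hf
      exact LinearMap.IsPerfPair.of_injective' i1 i2
  have f1 : FiniteChow C X n := by
    rcases hf with hf | hf
    · exact hf
    · have : FiniteDimensional ℚ (C.gr X (X.dim - n)) := hf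
      exact FiniteDimensional.of_injective p i1
  have f2 : FiniteChow C X (X.dim - n) := by
    rcases hf with hf | hf
    · have : FiniteDimensional ℚ (C.gr X n) := hf
      exact FiniteDimensional.of_injective p.flip i2
    · exact hf
  refine ⟨f1, f2, fun φ => ?_⟩
  obtain ⟨a, ha⟩ := hperf.bijective_left.2 (φ ∘ₗ (C.gr X (X.dim - n)).subtype)
  refine ⟨a, ⟨a.2, fun b hb => ?_⟩, fun a' ha' => ?_⟩
  · have h := hp a ⟨b, hb⟩
    rwa [ha] at h
  · have h : (⟨a', ha'.1⟩ : C.gr X n) = a := by
      apply i1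
      rw [ha]
      ext b
      exact hasDegree_unique H (hp ⟨a', ha'.1⟩ b) (ha'.2 b b.2)
    exact congrArg Subtype.val h

/-- In a perfect pairing numerically trivial classes vanish (right side). -/
lemma num_zero_of_perfect (H : WeilTheoryData.{u, v, w} C K) [hH : IsWeilProj H] {n : ℤ}
    (h : PerfectPairing C X n) {b : C.A X} (hb : NumTrivial C (X.dim - n) b) : b = 0 := by
  by_contra hne
  obtain ⟨hb1, hb2⟩ := hb
  have hφ' : ∃ φ : C.A X →ₗ[ℚ] ℚ, φ b ≠ 0 := by
    by_contra hall
    exact hne ((Module.forall_dual_apply_eq_zero_iff ℚ _).1 fun φ => by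
      by_contra h0
      exact hall ⟨φ, h0⟩)
  obtain ⟨φ, hφ⟩ := hφ'
  obtain ⟨a, ⟨ha0, ha⟩, -⟩ := h.2.2 φ
  have h1 := ha b hb1
  have e : (X.dim : ℤ) - (X.dim - n) = n := by ring
  have h2 := hb2 a (by rw [e]; exact ha0)
  rw [ch_comm C] at h2
  exact hφ (hasDegree_unique H h1 h2)

omit hC in
lemma mem_zeroIdeal {a : C.A X} : a ∈ (zeroIdeal C).I X ↔ a = 0 := Submodule.mem_bot ℚ

/-- Rational and numerical equivalence agree for the `1`-cycles iff the pairing between divisors and
`1`-cycles is perfect. -/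
lemma oneInN_iff_perfect (hF : HasFiniteFieldFacts C) (H : WeilTheoryData.{u, v, w} C K)
    [hH : IsWeilProj H] : OneInN (numIdeal C) (zeroIdeal C) X ↔ PerfectPairing C X 1 := by
  constructor
  · intro h
    refine perfect_of H (Or.inl (hF.finite X)) (fun a ha => hF.divisors X a ha) fun a ha => ?_
    obtain ⟨h1, h2⟩ := mem_numIdeal.1 ha
    exact mem_zeroIdeal.1 (h a h1 h2)
  · intro h z hz hz0
    exact mem_zeroIdeal.2 (num_zero_of_perfect H h (mem_numIdeal.2 ⟨hz, hz0⟩))

lemma finite_gr_zero (X : 𝒱.Obj) : FiniteChow C X 0 := by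
  have h : C.gr X 0 ≤ Submodule.span ℚ {(1 : C.A X)} := by
    intro x hx
    obtain ⟨q, hq⟩ := hC.gr_zero X x hx
    rw [hq]
    exact Submodule.smul_mem _ _ (Submodule.mem_span_singleton_self _)
  exact Submodule.finiteDimensional_of_le h

lemma num_zero_codim_zero (H : WeilTheoryData.{u, v, w} C K) [hH : IsWeilProj H] {a : C.A X}
    (ha : NumTrivial C 0 a) : a = 0 := by
  obtain ⟨h1, h2⟩ := ha
  obtain ⟨q, hq⟩ := hC.gr_zero X a h1
  obtain ⟨o, ho, ho1⟩ := exists_point (C := C) X
  have h3 := h2 o (by rw [sub_zero]; exact ho)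
  rw [hq, smul_mul_assoc, one_mul] at h3
  have h4 := hasDegree_smul q ho1
  have h5 := hasDegree_unique H h3 h4
  rw [mul_one] at h5
  rw [hq, ← h5, zero_smul]

lemma num_zero_top (hF : HasFiniteFieldFacts C) {a : C.A X} (ha : NumTrivial C X.dim a) :
    a = 0 := by
  obtain ⟨h1, h2⟩ := ha
  have h3 := h2 1 (by rw [sub_self]; exact C.one_mem X)
  rw [mul_one] at h3
  exact hF.zeroCycles X a h1 h3

/-- **Theorem.** Beilinson's conjecture for divisors and `1`-cycles on the members of the class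
generated by `S`. -/
theorem perfect_generated (hF : HasFiniteFieldFacts C) (H : WeilTheoryData.{u, v, w} C K)
    [hH : IsWeilProj H] (hS : HasCurveSections H) {S : 𝒱.Obj → Prop}
    (h : ∀ X, S X → ∀ D : 𝒱.Obj, D.dim = 1 → PerfectPairing C (X.prod D) 1)
    (hX : Generated C S X) :
    (∀ D : 𝒱.Obj, D.dim = 1 → PerfectPairing C (X.prod D) 1) ∧
      ∀ n : ℤ, 0 ≤ n → n ≤ X.dim → (n ≤ 1 ∨ (X.dim : ℤ) - 1 ≤ n) → PerfectPairing C X n := by
  have hI : HasFacts (zeroIdeal C) :=
    ⟨hF.oneCycles, fun X x hx h0 => mem_zeroIdeal.2 (hF.zeroCycles X x hx h0)⟩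
  have hm : HasModDiag (zeroIdeal C) := by
    intro D hD
    obtain ⟨o, ho, ho1, h0⟩ := hF.modifiedDiagonal D hD
    exact ⟨o, ho, ho1, mem_zeroIdeal.2 h0⟩
  have key := oneInN_generated (N := numIdeal C) (I := zeroIdeal C) (H := H) hI hm
    (fun X i a ha h0 => hom_le_num (H := H) ha h0)
    (fun X x hx hx0 => mem_zeroIdeal.2 (num_zero_top hF (mem_numIdeal.2 ⟨hx, hx0⟩))) hS
    (fun X hX D hD => (oneInN_iff_perfect hF H).2 (h X hX D hD)) hX
  refine ⟨fun D hD => (oneInN_iff_perfect hF H).1 (key.1 D hD), fun n h0 h1 h2 => ?_⟩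
  have hone : ∀ a : C.A X, NumTrivial C (X.dim - 1) a → a = 0 := by
    intro a ha
    obtain ⟨h1, h2⟩ := mem_numIdeal.1 ha
    exact mem_zeroIdeal.1 (key.2 a h1 h2)
  have hcase : n = 0 ∨ n = 1 ∨ n = X.dim ∨ n = X.dim - 1 := by omega
  rcases hcase with rfl | rfl | rfl | rfl
  · refine perfect_of H (Or.inl (finite_gr_zero X)) (fun a ha => num_zero_codim_zero H ha)
      fun a ha => num_zero_top hF ?_
    rwa [sub_zero] at ha
  · exact (oneInN_iff_perfect hF H).1 key.2
  · refine perfect_of H (Or.inr ?_) (fun a ha => num_zero_top hF ha)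
      fun a ha => num_zero_codim_zero H ?_
    · rw [sub_self]
      exact finite_gr_zero X
    · rwa [sub_self] at ha
  · have e : (X.dim : ℤ) - (X.dim - 1) = 1 := by ring
    refine perfect_of H (Or.inr ?_) hone fun a ha => hF.divisors X a ?_
    · rw [e]
      exact hF.finite X
    · rwa [e] at ha

end Pool.Agent.TH862.SN
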