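import Pool.Agent.TH862.SN.Defs

/-!
# Homologically trivial cycles of dimension `p` on products: definitions
-/

open CategoryTheory AlgebraicGeometry

universe u v w

namespace Pool.Agent.TH862.SN

open Pool.Agent.H914 Pool.Agent.H914.VarClass Pool.Agent.H914.VarClass.Obj Pool.Agent.W492.BB
  Pool.Agent.W550.Corr Pool.Agent.TH133

variable {k : Type u} [Field k] {𝒱 : VarClass k}

/-- Every cycle of dimension `p` is a linear combination of classes `f_* [W]`, `f : W ⟶ X` a
morphism from a smooth projective variety of dimension `p` (resolution of singularities). -/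
def HasResolutions (C : TheoryData.{u, v, 0} 𝒱 ℚ) (p : ℕ) : Prop :=
  ∀ (X : 𝒱.Obj) (z : C.A X), C.Deg (X.dim - p) z →
    z ∈ Submodule.span ℚ {y : C.A X | ∃ (W : 𝒱.Obj) (f : W ⟶ X), W.dim = p ∧ y = C.push f 1}

variable {C : TheoryData.{u, v, 0} 𝒱 ℚ} {K : Type w} [Field K]

/-- The conjecture of Voevodsky (for homological equivalence) for the cycles of dimension `p` on
`X`: the homologically trivial classes in `CH^(dim X - p)(X)` are smash-nilpotent. -/
def HomCycles (H : WeilTheoryData.{u, v, w} C K) (p : ℕ) (X : 𝒱.Obj) : Prop :=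
  ∀ z : C.A X, C.Deg (X.dim - p) z → H.cl z = 0 → SmashNilpotent C z

/-- The Kunneth standard conjecture for the varieties of dimension `p` (known for `p ≤ 2`): for all
`m` some correspondence in `CH^p(W × W)` is the identity on `H^m(W)` and zero on `H^l(W)`,
`l ≠ m`. -/
def KunnethIn (H : WeilTheoryData.{u, v, w} C K) (p : ℕ) : Prop :=
  ∀ W : 𝒱.Obj, W.dim = p → ∀ m : ℕ, ∃ π : C.A (W.prod W), C.Deg p π ∧ ∀ (l : ℤ) (a : H.A W),
    H.Deg l a → H.act (H.cl π) a = if l = m then a else 0

/-- The homology group `H_j(Y) = H^(2 dim Y - j)(Y)` is a direct summand of the homology `H_j(E)`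
of a variety `E` of dimension `p`, by means of correspondences `g ∈ CH^(dim Y)(E × Y)` and
`s ∈ CH^p(Y × E)` with `g_* s_* = id` on `H_j(Y)`. For `j ≤ 1 ≤ p` this is known (Poincare
reducibility); for `j ≤ p` it follows from the Lefschetz standard conjecture for `Y` (take for `E`
a linear section of `Y`, times a variety if `dim Y < p`). -/
def HasSection (H : WeilTheoryData.{u, v, w} C K) (p j : ℕ) (Y : 𝒱.Obj) : Prop :=
  ∃ (E : 𝒱.Obj) (g : C.A (E.prod Y)) (s : C.A (Y.prod E)), E.dim = p ∧
    C.Deg Y.dim g ∧ C.Deg p s ∧ ∀ a : H.A Y, H.Deg (2 * Y.dim - j) a →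
      H.act (H.cl g) (H.act (H.cl s) a) = a

end Pool.Agent.TH862.SN
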