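import Pool.Agent.TH862.SN.Gen
import Pool.Agent.TH862.SN.DefsP

/-!
# Homologically trivial cycles of dimension `p` on products
-/

open CategoryTheory AlgebraicGeometry

universe u v w

namespace Pool.Agent.TH862.SN

open Pool.Agent.H914 Pool.Agent.H914.VarClass Pool.Agent.H914.VarClass.Obj Pool.Agent.W492.BB
  Pool.Agent.W550.Corr Pool.Agent.TH133

set_option linter.unusedSectionVars false

variable {k : Type u} [Field k] {𝒱 : VarClass k}

variable {C : TheoryData.{u, v, 0} 𝒱 ℚ} [hC : IsChowProj C] {K : Type w} [Field K]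
  [CharZero K] {H : WeilTheoryData.{u, v, w} C K} [hH : IsWeilProj H] {I : CycleIdeal C}
  {X Y Z W E : 𝒱.Obj}

/-- Homologically trivial cycles of dimension `p` lie in the ideal. -/
def CycIn (H : WeilTheoryData.{u, v, w} C K) (I : CycleIdeal C) (p : ℕ) (X : 𝒱.Obj) : Prop :=
  ∀ z : C.A X, C.Deg (X.dim - p) z → H.cl z = 0 → z ∈ I.I X

include hC hH

lemma CycIn.of_iso {p : ℕ} (f : X ⟶ Y) (g : Y ⟶ X) (h2 : g ≫ f = 𝟙 Y) (hX : CycIn H I p X) :
    CycIn H I p Y := by
  intro z hz hz0
  have h1 : C.Deg (X.dim - p) (C.push g z) := by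
    have h := C.push_mem g hz
    have e : (Y.dim : ℤ) - p + 1 * (X.dim - Y.dim) = X.dim - p := by ring
    rwa [e] at h
  have h := hX (C.push g z) h1 (by rw [H.cl_push, hz0, map_zero])
  have h3 := I.push_mem f h
  rwa [← C.push_comp, h2, C.push_id] at h3

/-- Degrees of the action on the cohomology. -/
lemma actH_deg {d i : ℤ} {Γ : C.A (X.prod Y)} (hΓ : C.Deg d Γ) {a : H.A X} (ha : a ∈ H.gr X i) :
    H.act (H.cl Γ) a ∈ H.gr Y (i + 2 * (d - X.dim)) := by
  have h3 := H.push_mem (snd X Y) (H.mul_mem (H.cl_mem hΓ) (H.pull_mem (fst X Y) ha))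
  have e : 2 * d + i + 2 * ((Y.dim : ℤ) - ((X.prod Y).dim : ℤ)) = i + 2 * (d - X.dim) := by
    rw [dim_prod]; push_cast; ring
  rw [e] at h3
  exact h3

/-- A combination of correspondences `Γ_b ∘ ρ ∘ Γ_a^t` through varieties of dimension `p`, where `ρ`
is concentrated in one degree. -/
lemma part_mem {p j : ℕ} (hYW : ∀ W : 𝒱.Obj, W.dim = p → CycIn H I p (Y.prod W))
    (hE : E.dim = p) (hXE : CycIn H I p (X.prod E)) {g : C.A (E.prod Y)} (hg : C.Deg Y.dim g)
    {s : C.A (Y.prod E)} (hs : C.Deg p s)
    (hgs : ∀ a : H.A Y, H.Deg (2 * Y.dim - j) a → H.act (H.cl g) (H.act (H.cl s) a) = a)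
    {n : ℕ} {W : Fin n → 𝒱.Obj} (hW : ∀ i, (W i).dim = p) (a : ∀ i, W i ⟶ X) (b : ∀ i, W i ⟶ Y)
    (q : Fin n → ℚ) {ρ : ∀ i, C.A ((W i).prod (W i))} (hρ : ∀ i, C.Deg p (ρ i))
    (hρ0 : ∀ i (l : ℤ) (x : H.A (W i)), x ∈ H.gr (W i) l → l ≠ 2 * p - j →
      H.act (H.cl (ρ i)) x = 0)
    (h0 : H.cl (∑ i, q i • C.comp (C.cograph (a i)) (C.comp (ρ i) (C.graph (b i)))) = 0) :
    ∑ i, q i • C.comp (C.cograph (a i)) (C.comp (ρ i) (C.graph (b i))) ∈ I.I (X.prod Y) := by
  set Z := ∑ i, q i • C.comp (C.cograph (a i)) (C.comp (ρ i) (C.graph (b i))) with hZ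
  have hγ : ∀ i, C.Deg Y.dim (C.comp (ρ i) (C.graph (b i))) := fun i =>
    comp_deg (hρ i) (graph_mem (b i)) (by rw [hW i]; ring)
  have hδ : ∀ i, C.comp (ρ i) (C.graph (b i)) -
      C.comp (C.comp (C.comp (ρ i) (C.graph (b i))) s) g ∈ I.I ((W i).prod Y) := by
    intro i
    set γ := C.comp (ρ i) (C.graph (b i)) with hγi
    have h1 : C.Deg p (C.comp γ s) := comp_deg (hγ i) hs (by ring)
    have h2 : C.Deg Y.dim (C.comp (C.comp γ s) g) := comp_deg h1 hg (by rw [hE]; ring)
    have hO : CycIn H I p ((W i).prod Y) :=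
      (hYW (W i) (hW i)).of_iso (sw Y (W i)) (sw (W i) Y) sw_sw
    refine hO _ ?_ ?_
    · have e : (((W i).prod Y).dim : ℤ) - p = Y.dim := by
        rw [dim_prod, hW i]; push_cast; ring
      rw [e]
      exact Submodule.sub_mem _ (hγ i) h2
    · apply hom_zero_of_act H
      intro x
      have h0 : (H.toTheoryData.actL (H.cl (γ - C.comp (C.comp γ s) g))) =
          (0 : H.A (W i) →ₗ[K] H.A Y) := by
        apply ext_gr H
        intro l x hx
        rw [TheoryData.actL_apply, LinearMap.zero_apply, map_sub, TheoryData.act_sub,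
          actH_comp H (C.comp γ s) g, actH_comp H γ s]
        by_cases hl : l = 2 * p - j
        · rw [hgs, sub_self]
          have h3 := actH_deg (hγ i) hx
          have e : l + 2 * ((Y.dim : ℤ) - (W i).dim) = 2 * Y.dim - j := by
            rw [hl, hW i]; ring
          rw [e] at h3
          exact h3
        · have h3 : H.act (H.cl γ) x = 0 := by
            rw [hγi, actH_comp H, hρ0 i l x hx hl, TheoryData.act_map_zero]
          rw [h3, TheoryData.act_map_zero, TheoryData.act_map_zero, sub_self]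
      have h4 := LinearMap.congr_fun h0 x
      rwa [TheoryData.actL_apply, LinearMap.zero_apply] at h4
  have h1 : Z - C.comp (C.comp Z s) g ∈ I.I (X.prod Y) := by
    have h2 : Z - C.comp (C.comp Z s) g = ∑ i, q i • C.comp (C.cograph (a i))
        (C.comp (ρ i) (C.graph (b i)) - C.comp (C.comp (C.comp (ρ i) (C.graph (b i))) s) g) := by
      have e1 : ∀ i, C.comp (C.comp (q i • C.comp (C.cograph (a i)) (C.comp (ρ i)
          (C.graph (b i)))) s) g = q i • C.comp (C.cograph (a i))
            (C.comp (C.comp (C.comp (ρ i) (C.graph (b i))) s) g) := by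
        intro i
        have e2 : C.comp (C.comp (q i • C.comp (C.cograph (a i)) (C.comp (ρ i)
          (C.graph (b i)))) s) g = q i • C.comp (C.comp (C.comp (C.cograph (a i)) (C.comp (ρ i)
          (C.graph (b i)))) s) g := by
          simp only [← compL_apply, map_smul, LinearMap.smul_apply]
        rw [e2, comp_assoc C (C.cograph (a i)), comp_assoc C (C.cograph (a i))]
      rw [hZ, sum_comp, sum_comp, ← Finset.sum_sub_distrib]
      refine Finset.sum_congr rfl fun i _ => ?_
      rw [e1 i, comp_sub, smul_sub]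
    rw [h2]
    exact Submodule.sum_mem _ fun i _ => Submodule.smul_mem _ _ (I.comp_right _ (hδ i))
  have hZd : C.Deg (X.dim + Y.dim - p) Z := by
    rw [hZ]
    refine Submodule.sum_mem _ fun i _ => Submodule.smul_mem _ _ ?_
    refine comp_deg (cograph_mem (a i)) (hγ i) ?_
    rw [hW i]
  have hw : C.comp Z s ∈ I.I (X.prod E) := by
    refine hXE _ ?_ ?_
    · refine comp_deg hZd hs ?_
      rw [dim_prod, hE]; push_cast; ring
    · rw [cl_comp H, h0]
      exact zero_comp _ _
  have h6 := Submodule.add_mem _ h1 (I.comp_left g hw)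
  rwa [sub_add_cancel] at h6

/-- The transposed correspondence of a Kunneth component is concentrated in the dual degree. -/
lemma tp_concentrated {p : ℕ} (hW : W.dim = p) {π : C.A (W.prod W)} {m : ℤ}
    (hπ : ∀ (l : ℤ) (a : H.A W), H.Deg l a → H.act (H.cl π) a = if l = m then a else 0)
    {l : ℤ} {x : H.A W} (hx : x ∈ H.gr W l) (hl : l ≠ 2 * p - m) :
    H.act (H.cl (tp C π)) x = 0 := by
  apply H.nondeg
  intro b
  have h2 : (H.tr W) ∘ₗ (LinearMap.mulLeft K (H.act (H.cl (tp C π)) x)) = 0 := by
    apply ext_gr H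
    intro i a ha
    rw [LinearMap.comp_apply, LinearMap.mulLeft_apply, LinearMap.zero_apply, tr_act',
      hπ i a ha]
    split_ifs with h
    · apply tr_zero H (H.mul_mem hx ha)
      rw [hW]
      omega
    · rw [mul_zero, map_zero]
  exact LinearMap.congr_fun h2 b

omit hH in
lemma tp_triple (a : W ⟶ X) (b : W ⟶ Y) (π : C.A (W.prod W)) :
    tp C (C.comp (C.cograph a) (C.comp π (C.graph b))) =
      C.comp (C.cograph b) (C.comp (tp C π) (C.graph a)) := by
  rw [tp_comp C (fun a b => ch_comm C a b), tp_comp C (fun a b => ch_comm C a b), tp_cograph,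
    tp_graph, comp_assoc C]

/-- **Theorem.** Cycles of dimension `p` on a product of two varieties. -/
theorem cycIn_prod {p : ℕ} (hR : HasResolutions C p) (hK : KunnethIn H p)
    (hXs : ∀ j, j < p → HasSection H p j X) (hYs : ∀ j, j ≤ p → HasSection H p j Y)
    (hX : ∀ W : 𝒱.Obj, W.dim = p → CycIn H I p (X.prod W))
    (hY : ∀ W : 𝒱.Obj, W.dim = p → CycIn H I p (Y.prod W)) : CycIn H I p (X.prod Y) := by
  classical
  intro z hz hz0
  obtain ⟨n, q, y, hzy⟩ := (Submodule.mem_span_set').1 (hR _ z hz)
  choose W F hW hF using fun i => (y i).2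
  set a : ∀ i, W i ⟶ X := fun i => F i ≫ fst X Y with ha
  set b : ∀ i, W i ⟶ Y := fun i => F i ≫ snd X Y with hb
  have hF' : ∀ i, C.push (F i) 1 = C.comp (C.cograph (a i)) (C.graph (b i)) := by
    intro i
    rw [cograph_comp_graph]
    congr 2
    apply prod_ext
    · rw [lift_fst]
    · rw [lift_snd]
  -- the Kunneth components of the diagonals
  have hπ : ∀ i, ∃ π : ℕ → C.A ((W i).prod (W i)), (∀ m, C.Deg p (π m)) ∧
      (∀ m (l : ℤ) (x : H.A (W i)), H.Deg l x →
        H.act (H.cl (π m)) x = if l = m then x else 0) ∧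
      ∑ m ∈ Finset.range (2 * p + 1), π m = dg C (W i) := by
    intro i
    choose π hπ1 hπ2 using hK (W i) (hW i)
    set r := dg C (W i) - ∑ m ∈ Finset.range (2 * p + 1), π m with hr
    have hrd : C.Deg p r := by
      refine Submodule.sub_mem _ ?_ (Submodule.sum_mem _ fun m _ => hπ1 m)
      have := dg_mem C (W i)
      rwa [hW i] at this
    have hr0 : H.cl r = 0 := by
      apply hom_zero_of_act H
      intro x
      have h0 : (H.toTheoryData.actL (H.cl r)) = (0 : H.A (W i) →ₗ[K] H.A (W i)) := by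
        apply ext_gr H
        intro l x hx
        rw [TheoryData.actL_apply, LinearMap.zero_apply, hr, map_sub, TheoryData.act_sub,
          actH_dg H, map_sum, act_sum, Finset.sum_congr rfl fun m _ => hπ2 m l x hx]
        by_cases h1 : 0 ≤ l ∧ l ≤ 2 * p
        · have h2 : l.toNat ∈ Finset.range (2 * p + 1) := by
            rw [Finset.mem_range]
            omega
          rw [Finset.sum_eq_single l.toNat]
          · rw [if_pos (by omega), sub_self]
          · intro m _ hm
            rw [if_neg (by omega)]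
          · intro h3
            exact absurd h2 h3
        · have h2 : x = 0 := by
            rcases lt_or_ge l 0 with h3 | h3
            · rw [H.gr_neg _ l h3] at hx
              exact (Submodule.mem_bot K).1 hx
            · rw [gr_top H (by rw [hW i]; omega)] at hx
              exact (Submodule.mem_bot K).1 hx
          rw [h2]
          simp
      have h4 := LinearMap.congr_fun h0 x
      rwa [TheoryData.actL_apply, LinearMap.zero_apply] at h4
    refine ⟨fun m => if m = 0 then π 0 + r else π m, fun m => ?_, fun m l x hx => ?_, ?_⟩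
    · dsimp only
      split_ifs
      · exact Submodule.add_mem _ (hπ1 0) hrd
      · exact hπ1 m
    · dsimp only
      split_ifs with h1 h2 h2
      · rw [map_add, hr0, add_zero, hπ2 0 l x hx, if_pos (by rw [h2, h1])]
      · rw [map_add, hr0, add_zero, hπ2 0 l x hx, if_neg (by rw [h1] at h2; exact h2)]
      · rw [hπ2 m l x hx, if_pos h2]
      · rw [hπ2 m l x hx, if_neg h2]
    · rw [Finset.sum_range_succ']
      have e1 : ∀ m ∈ Finset.range (2 * p), (if m + 1 = 0 then π 0 + r else π (m + 1)) =
          π (m + 1) := fun m _ => if_neg (Nat.succ_ne_zero m)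
      rw [Finset.sum_congr rfl e1, if_pos rfl, ← add_assoc, ← Finset.sum_range_succ', hr]
      abel
  choose π hπd hπa hπs using hπ
  -- the components of `z`
  set Z : ℕ → C.A (X.prod Y) := fun m =>
    ∑ i, q i • C.comp (C.cograph (a i)) (C.comp (π i m) (C.graph (b i))) with hZ
  have hzZ : z = ∑ m ∈ Finset.range (2 * p + 1), Z m := by
    rw [hZ, Finset.sum_comm, ← hzy]
    refine Finset.sum_congr rfl fun i _ => ?_
    rw [← Finset.smul_sum, hF i, hF' i, ← comp_sum, ← sum_comp, hπs i, dg_comp]
  have hZ0 : ∀ m, H.cl (Z m) = 0 := by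
    intro m
    apply hom_zero_of_act H
    intro x
    have h0 : (H.toTheoryData.actL (H.cl (Z m))) = (0 : H.A X →ₗ[K] H.A Y) := by
      apply ext_gr H
      intro l x hx
      rw [TheoryData.actL_apply, LinearMap.zero_apply]
      have e1 : ∀ i, H.act (H.cl (C.comp (C.cograph (a i)) (C.comp (π i m) (C.graph (b i))))) x =
          if l = m then H.act (H.cl (C.comp (C.cograph (a i)) (C.graph (b i)))) x else 0 := by
        intro i
        have h3 := actH_deg (H := H) (cograph_mem (a i)) hx
        have e : l + 2 * ((X.dim : ℤ) - X.dim) = l := by ring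
        rw [e] at h3
        rw [actH_comp H, actH_comp H, hπa i m l _ h3, actH_comp H]
        split_ifs
        · rfl
        · rw [TheoryData.act_map_zero]
      have e2 : ∀ f : Fin n → C.A (X.prod Y), H.act (H.cl (∑ i, q i • f i)) x =
          ∑ i, (q i : K) • H.act (H.cl (f i)) x := by
        intro f
        rw [map_sum, act_sum]
        refine Finset.sum_congr rfl fun i _ => ?_
        rw [cl_rat_smul, ← actB_apply, map_smul, LinearMap.smul_apply, actB_apply]
      rw [hZ]
      dsimp only
      rw [e2, Finset.sum_congr rfl fun i _ => by rw [e1 i]]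
      by_cases hl : l = m
      · have e3 : z = ∑ i, q i • C.comp (C.cograph (a i)) (C.graph (b i)) := by
          rw [← hzy]
          refine Finset.sum_congr rfl fun i _ => ?_
          rw [hF i, hF' i]
        have e4 := e2 fun i => C.comp (C.cograph (a i)) (C.graph (b i))
        rw [← e3, hz0, TheoryData.act_zero] at e4
        rw [e4]
        refine Finset.sum_congr rfl fun i _ => ?_
        rw [if_pos hl]
      · refine Finset.sum_eq_zero fun i _ => ?_
        rw [if_neg hl, smul_zero]
    have h4 := LinearMap.congr_fun h0 x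
    rwa [TheoryData.actL_apply, LinearMap.zero_apply] at h4
  rw [hzZ]
  refine Submodule.sum_mem _ fun m hm => ?_
  have hm' : m ≤ 2 * p := by
    rw [Finset.mem_range] at hm
    omega
  by_cases hmp : p ≤ m
  · obtain ⟨E, g, s, hE, hg, hs, hgs⟩ := hYs (2 * p - m) (by omega)
    refine part_mem (j := 2 * p - m) hY hE (hX E hE) hg hs hgs hW a b q
      (fun i => hπd i m) (fun i l x hx hl => ?_) (hZ0 m)
    rw [hπa i m l x hx, if_neg (by omega)]
  · obtain ⟨E, g, s, hE, hg, hs, hgs⟩ := hXs m (by omega)
    have h1 : tp C (Z m) = ∑ i, q i • C.comp (C.cograph (b i)) (C.comp (tp C (π i m))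
        (C.graph (a i))) := by
      rw [hZ]
      dsimp only
      rw [tp_sum]
      refine Finset.sum_congr rfl fun i _ => ?_
      rw [tp_smul, tp_triple]
    have h2 : H.cl (tp C (Z m)) = 0 := by
      rw [cl_tp H, hZ0 m]
      exact tp_zero _
    rw [h1] at h2
    have h3 := part_mem (j := m) hX hE (hY E hE) hg hs hgs hW b a q
      (fun i => tp_mem C (hπd i m)) (fun i l x hx hl =>
        tp_concentrated (hW i) (m := m) (fun l a ha => hπa i m l a ha) hx hl) h2
    rw [← h1] at h3
    have h4 := I.pull_mem (sw X Y) h3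
    have h5 : C.pull (sw X Y) (tp C (Z m)) = Z m := tp_tp C (Z m)
    rwa [h5] at h4

end Pool.Agent.TH862.SN
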