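import Pool.Agent.TH133.Defs

/-!
# Smash-nilpotent cycles: definitions
-/

open CategoryTheory AlgebraicGeometry

universe u v w

namespace Pool.Agent.TH862.SN

open Pool.Agent.H914 Pool.Agent.H914.VarClass Pool.Agent.H914.VarClass.Obj Pool.Agent.W492.BB
  Pool.Agent.W550.Corr Pool.Agent.TH133

variable {k : Type u} [Field k] {𝒱 : VarClass k}

/-- The power `X × (X × ⋯ × X)` with `n + 1` factors. -/
noncomputable def powObj (X : 𝒱.Obj) : ℕ → 𝒱.Obj
  | 0 => X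
  | n + 1 => X.prod (powObj X n)

/-- The exterior power `a × (a × ⋯ × a)` with `n + 1` factors, a class on `powObj X n`. -/
noncomputable def extPow (C : TheoryData.{u, v, 0} 𝒱 ℚ) {X : 𝒱.Obj} (a : C.A X) :
    (n : ℕ) → C.A (powObj X n)
  | 0 => a
  | n + 1 => C.ext a (extPow C a n)

/-- The class `a` is smash-nilpotent: some exterior power `a × ⋯ × a` (`n + 1` factors) is zero. -/
def SmashNilpotent (C : TheoryData.{u, v, 0} 𝒱 ℚ) {X : 𝒱.Obj} (a : C.A X) : Prop :=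
  ∃ n : ℕ, extPow C a n = 0

/-- The class `a ∈ CH^i(X)` is numerically trivial: `deg (a · b) = 0` for all
`b ∈ CH^(dim X - i)(X)`. -/
def NumTrivial (C : TheoryData.{u, v, 0} 𝒱 ℚ) {X : 𝒱.Obj} (i : ℤ) (a : C.A X) : Prop :=
  C.Deg i a ∧ ∀ b : C.A X, C.Deg (X.dim - i) b → HasDegree C (a * b) 0

/-- The conjecture of Voevodsky for the `1`-cycles on `X`: the numerically trivial classes in
`CH_1(X) = CH^(dim X - 1)(X)` are smash-nilpotent. -/
def VoevodskyOne (C : TheoryData.{u, v, 0} 𝒱 ℚ) (X : 𝒱.Obj) : Prop :=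
  ∀ z : C.A X, NumTrivial C (X.dim - 1) z → SmashNilpotent C z

/-- The product `X 0 × (X 1 × (⋯ × X n))` of the first `n + 1` members of the sequence `X`. -/
noncomputable def prodN : ℕ → (ℕ → 𝒱.Obj) → 𝒱.Obj
  | 0, X => X 0
  | n + 1, X => (X 0).prod (prodN n fun i => X (i + 1))

/-- The projection of `X 0 × (X 1 × (⋯ × X n))` to `X i`. -/
noncomputable def pr : (n : ℕ) → (X : ℕ → 𝒱.Obj) → (i : Fin (n + 1)) → (prodN n X ⟶ X i)
  | 0, X, i => Fin.cases (motive := fun i => prodN 0 X ⟶ X i) (𝟙 (X 0)) (fun j => j.elim0) i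
  | n + 1, X, i => Fin.cases (motive := fun i => prodN (n + 1) X ⟶ X i)
      (fst (X 0) (prodN n fun i => X (i + 1)))
      (fun j => snd (X 0) (prodN n fun i => X (i + 1)) ≫ pr n (fun i => X (i + 1)) j) i

/-- The projection of `X 0 × (X 1 × (⋯ × X n))` to `X i × X j`. -/
noncomputable def pr₂ (n : ℕ) (X : ℕ → 𝒱.Obj) (i j : Fin (n + 1)) :
    prodN n X ⟶ (X i).prod (X j) := Obj.lift (pr n X i) (pr n X j)

section three

variable (C : TheoryData.{u, v, 0} 𝒱 ℚ) (X Y Z : 𝒱.Obj)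

/-- The projection of `X × (Y × Z)` to `Y`. -/
noncomputable def p2 : X.prod (Y.prod Z) ⟶ Y := snd X (Y.prod Z) ≫ fst Y Z

/-- The projection of `X × (Y × Z)` to `Z`. -/
noncomputable def p3 : X.prod (Y.prod Z) ⟶ Z := snd X (Y.prod Z) ≫ snd Y Z

/-- The projection of `X × (Y × Z)` to `X × Y`. -/
noncomputable def p12 : X.prod (Y.prod Z) ⟶ X.prod Y := Obj.lift (fst X (Y.prod Z)) (p2 X Y Z)

/-- The projection of `X × (Y × Z)` to `X × Z`. -/
noncomputable def p13 : X.prod (Y.prod Z) ⟶ X.prod Z := Obj.lift (fst X (Y.prod Z)) (p3 X Y Z)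

/-- The sum `Δ₁₂ + Δ₁₃ + Δ₂₃` on `D × (D × D)`, where `Δ₁₂ = {(x, x, o)}`, `Δ₁₃ = {(x, o, x)}`,
`Δ₂₃ = {(o, x, x)}`. -/
noncomputable def pairDiag (D : 𝒱.Obj) (o : C.A D) : C.A (D.prod (D.prod D)) :=
  C.mul (C.up (p12 D D D) (dg C D)) (C.up (p3 D D D) o)
    + C.mul (C.up (p13 D D D) (dg C D)) (C.up (p2 D D D) o) + C.ext o (dg C D)

/-- The sum `Δ₁ + Δ₂ + Δ₃` on `D × (D × D)`, where `Δ₁ = {(x, o, o)}`, `Δ₂ = {(o, x, o)}`,
`Δ₃ = {(o, o, x)}`. -/
noncomputable def lineDiag (D : 𝒱.Obj) (o : C.A D) : C.A (D.prod (D.prod D)) :=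
  C.ext 1 (C.ext o o) + C.ext o (C.ext 1 o) + C.ext o (C.ext o 1)

/-- The modified diagonal of Gross and Schoen of `D` with respect to the zero-cycle `o`:
`Δ₁₂₃ - (Δ₁₂ + Δ₁₃ + Δ₂₃) + (Δ₁ + Δ₂ + Δ₃)` on `D × (D × D)`, where `Δ₁₂₃ = {(x, x, x)}`. -/
noncomputable def modDiag (D : 𝒱.Obj) (o : C.A D) : C.A (D.prod (D.prod D)) :=
  C.down (Obj.lift (𝟙 D) (Obj.lift (𝟙 D) (𝟙 D))) 1 - pairDiag C D o + lineDiag C D o

end three

/-- Known facts on cycles:

* every `1`-cycle is a linear combination of classes `f_* [D]`, `f : D ⟶ X` a morphism from a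
  smooth projective curve (the normalization of its image);
* zero-cycles of degree zero are smash-nilpotent (Voevodsky; Voisin: they are algebraically
  trivial);
* the modified diagonal of a curve, with respect to some zero-cycle of degree one, is
  smash-nilpotent (Kimura: `h^1` of a curve is oddly finite-dimensional, hence also its
  tensor cube; see Sebastian). -/
structure HasCurveFacts (C : TheoryData.{u, v, 0} 𝒱 ℚ) : Prop where
  oneCycles : ∀ (X : 𝒱.Obj) (z : C.A X), C.Deg (X.dim - 1) z →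
    z ∈ Submodule.span ℚ {y : C.A X | ∃ (D : 𝒱.Obj) (f : D ⟶ X), D.dim = 1 ∧ y = C.push f 1}
  zeroCycles : ∀ (X : 𝒱.Obj) (x : C.A X), C.Deg X.dim x → HasDegree C x 0 → SmashNilpotent C x
  modifiedDiagonal : ∀ D : 𝒱.Obj, D.dim = 1 → ∃ o : C.A D, C.Deg 1 o ∧ HasDegree C o 1 ∧
    SmashNilpotent C (modDiag C D o)

end Pool.Agent.TH862.SN
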