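import Pool.Agent.TH862.SN.DefsHom

/-!
# Varieties generated by products and supports of zero-cycles: definitions
-/

open CategoryTheory AlgebraicGeometry

universe u v w

namespace Pool.Agent.TH862.SN

open Pool.Agent.H914 Pool.Agent.H914.VarClass Pool.Agent.H914.VarClass.Obj Pool.Agent.W492.BB
  Pool.Agent.W550.Corr Pool.Agent.TH133

variable {k : Type u} [Field k] {𝒱 : VarClass k}

/-- The smallest class of varieties which contains the class `S`, is closed under products, and
contains `X` as soon as the zero-cycles on `X` are supported on members `B i` of the class in the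
sense of Bloch and Srinivas: there is a decomposition `Δ_X = Z_1 + Z_2` in `CH^(dim X)(X × X)` where
`Z_1` is the sum of the push-forwards of classes `u i ∈ CH^(dim B i)(B i × X)` under
`ι i × id : B i × X ⟶ X × X`, and `Z_2` is the sum of the push-forwards of classes `W j` on
`X × D j` under `id × κ j : X × D j ⟶ X × X`, where `dim D j < dim X`. -/
inductive Generated (C : TheoryData.{u, v, 0} 𝒱 ℚ) (S : 𝒱.Obj → Prop) : 𝒱.Obj → Prop
  | base (X : 𝒱.Obj) (hX : S X) : Generated C S X
  | product (X Y : 𝒱.Obj) (hX : Generated C S X) (hY : Generated C S Y) :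
      Generated C S (X.prod Y)
  | support (X : 𝒱.Obj) (m n : ℕ) (B : Fin m → 𝒱.Obj) (hB : ∀ i, Generated C S (B i))
      (ι : ∀ i, B i ⟶ X) (u : ∀ i, C.A ((B i).prod X)) (hu : ∀ i, C.Deg (B i).dim (u i))
      (D : Fin n → 𝒱.Obj) (hD : ∀ j, (D j).dim < X.dim) (κ : ∀ j, D j ⟶ X)
      (W : ∀ j, C.A (X.prod (D j)))
      (hΔ : dg C X = ∑ i, C.down (prodMap (ι i) (𝟙 X)) (u i) +
        ∑ j, C.down (prodMap (𝟙 X) (κ j)) (W j)) : Generated C S X

end Pool.Agent.TH862.SN
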