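import Pool.Agent.TH862.SN.Defs

/-!
# Homologically trivial one-cycles on products with curves: definitions
-/

open CategoryTheory AlgebraicGeometry

universe u v w

namespace Pool.Agent.TH862.SN

open Pool.Agent.H914 Pool.Agent.H914.VarClass Pool.Agent.H914.VarClass.Obj Pool.Agent.W492.BB
  Pool.Agent.W550.Corr Pool.Agent.TH133

variable {k : Type u} [Field k] {𝒱 : VarClass k} {C : TheoryData.{u, v, 0} 𝒱 ℚ} {K : Type w}
  [Field K]

/-- The conjecture of Voevodsky (for homological equivalence) for the `1`-cycles on `X`: the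
homologically trivial classes in `CH_1(X) = CH^(dim X - 1)(X)` are smash-nilpotent. -/
def HomOne (H : WeilTheoryData.{u, v, w} C K) (X : 𝒱.Obj) : Prop :=
  ∀ z : C.A X, C.Deg (X.dim - 1) z → H.cl z = 0 → SmashNilpotent C z

/-- The conjecture of Voevodsky holds for the `1`-cycles on `X × D`, for all curves `D`. -/
def HomOneCurves (H : WeilTheoryData.{u, v, w} C K) (X : 𝒱.Obj) : Prop :=
  ∀ D : 𝒱.Obj, D.dim = 1 → HomOne H (X.prod D)

/-- The first homology of `Y` is a direct summand of that of a curve (hyperplane sections and the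
reducibility theorem of Poincare): there are a curve `E` and correspondences
`g ∈ CH^(dim Y)(E × Y)`, `s ∈ CH^1(Y × E)` such that `g_* s_*` is the identity on
`H^(2 dim Y - 1)(Y)`. -/
def HasCurveSections (H : WeilTheoryData.{u, v, w} C K) : Prop :=
  ∀ Y : 𝒱.Obj, ∃ (E : 𝒱.Obj) (g : C.A (E.prod Y)) (s : C.A (Y.prod E)), E.dim = 1 ∧
    C.Deg Y.dim g ∧ C.Deg 1 s ∧ ∀ a : H.A Y, H.Deg (2 * Y.dim - 1) a →
      H.act (H.cl g) (H.act (H.cl s) a) = a

end Pool.Agent.TH862.SN
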