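import Pool.Agent.TH862.SN.DefsFFP

/-!
# Tate classes: definitions
-/

open CategoryTheory AlgebraicGeometry

universe u v w

namespace Pool.Agent.TH862.SN

open Pool.Agent.H914 Pool.Agent.H914.VarClass Pool.Agent.H914.VarClass.Obj Pool.Agent.W492.BB
  Pool.Agent.W550.Corr Pool.Agent.TH133

variable {k : Type u} [Field k] {𝒱 : VarClass k} {C : TheoryData.{u, v, 0} 𝒱 ℚ} {K : Type w}
  [Field K]

/-- A family of subspaces of the cohomology of all varieties. -/
structure SubFam (H : WeilTheoryData.{u, v, w} C K) where
  /-- the subspace of `H(X)` -/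
  T : ∀ X : 𝒱.Obj, Submodule K (H.A X)

variable {H : WeilTheoryData.{u, v, w} C K}

/-- The class `a` lies in the subspace. -/
def SubFam.Has (T : SubFam H) {X : 𝒱.Obj} (a : H.A X) : Prop := a ∈ T.T X

/-- The classes of the cycles lie in the subspaces. -/
def SubFam.HasCycles (T : SubFam H) : Prop := ∀ (X : 𝒱.Obj) (z : C.A X), T.Has (H.cl z)

/-- The subspaces are stable under products. -/
def SubFam.HasMul (T : SubFam H) : Prop :=
  ∀ (X : 𝒱.Obj) (a b : H.A X), T.Has a → T.Has b → T.Has (H.mul a b)

/-- The subspaces are stable under pull-backs. -/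
def SubFam.HasPull (T : SubFam H) : Prop :=
  ∀ (X Y : 𝒱.Obj) (f : X ⟶ Y) (b : H.A Y), T.Has b → T.Has (H.up f b)

/-- The subspaces are stable under push-forwards. -/
def SubFam.HasPush (T : SubFam H) : Prop :=
  ∀ (X Y : 𝒱.Obj) (f : X ⟶ Y) (a : H.A X), T.Has a → T.Has (H.down f a)

/-- The formal properties of the Tate classes: subspaces of the cohomology which contain the classes
of the cycles and are stable under products, pull-backs and push-forwards. (Over the closure `k` of
a finite field, with `H^i(X) = H^i(X, ℚ_ℓ)` and the twists given by a choice of a generator of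
`ℚ_ℓ(1)`: the classes in the `H^(2i)(X)(i)` which are fixed by an open subgroup of the Galois
group.) -/
structure IsTate (T : SubFam H) : Prop where
  cycles : T.HasCycles
  mul : T.HasMul
  pull : T.HasPull
  push : T.HasPush

/-- The span of the classes of the cycles of codimension `i` on `X`. -/
def clSpan (H : WeilTheoryData.{u, v, w} C K) (X : 𝒱.Obj) (i : ℤ) : Submodule K (H.A X) :=
  Submodule.span K {c : H.A X | ∃ z : C.A X, C.Deg i z ∧ c = H.cl z}

/-- The Tate conjecture for the cycles of dimension `p` on `X`: the Tate classes in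
`H^(2 dim X - 2p)(X)` are linear combinations of classes of cycles. -/
def TateAlg (T : SubFam H) (p : ℕ) (X : 𝒱.Obj) : Prop :=
  ∀ t : H.A X, T.Has t → H.Deg (2 * (X.dim - p)) t → t ∈ clSpan H X (X.dim - p)

/-- The cycle class map `CH_p(X) ⊗ K → H^(2 dim X - 2p)(X)` is injective: it maps linearly
independent classes of cycles (over `ℚ`) to linearly independent classes (over `K`). -/
def ClInjective (H : WeilTheoryData.{u, v, w} C K) (p : ℕ) (X : 𝒱.Obj) : Prop :=
  ∀ (n : ℕ) (z : Fin n → C.A X), (∀ i, C.Deg (X.dim - p) (z i)) → LinearIndependent ℚ z →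
    LinearIndependent K fun i => H.cl (z i)

/-- `H_j(X)` is a direct summand of the homology `H_j` of varieties of dimension `p`, for `j < n`. -/
def HasSections (H : WeilTheoryData.{u, v, w} C K) (p n : ℕ) (X : 𝒱.Obj) : Prop :=
  ∀ j, j < n → HasSection H p j X

/-- Rational and numerical equivalence agree for the cycles of dimension `p` on `X × W`, for all
varieties `W` of dimension `p`. -/
def NumZeroProd (C : TheoryData.{u, v, 0} 𝒱 ℚ) (p : ℕ) (X : 𝒱.Obj) : Prop :=
  ∀ W : 𝒱.Obj, W.dim = p → NumZero C p (X.prod W)

/-- The Tate conjecture for the cycles of dimension `p` on `X × W`, for all varieties `W` of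
dimension `p`. -/
def TateProd (T : SubFam H) (p : ℕ) (X : 𝒱.Obj) : Prop :=
  ∀ W : 𝒱.Obj, W.dim = p → TateAlg T p (X.prod W)

end Pool.Agent.TH862.SN
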