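import Pool.Agent.TH862.SN.Hom
import Pool.Agent.TH862.SN.DefsCT
import Pool.Agent.TH133.AlgEq

/-!
# One-cycles trivial for an equivalence relation coarser than homological equivalence
-/

open CategoryTheory AlgebraicGeometry

universe u v w

namespace Pool.Agent.TH862.SN

open Pool.Agent.H914 Pool.Agent.H914.VarClass Pool.Agent.H914.VarClass.Obj Pool.Agent.W492.BB
  Pool.Agent.W550.Corr Pool.Agent.TH133

set_option linter.unusedSectionVars false

variable {k : Type u} [Field k] {𝒱 : VarClass k}

section num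

variable {C : TheoryData.{u, v, 0} 𝒱 ℚ} [hC : IsChowProj C] {X Y : 𝒱.Obj}

include hC

lemma hasDegree_push_iff (f : X ⟶ Y) {x : C.A X} {q : ℚ} :
    HasDegree C (C.push f x) q ↔ HasDegree C x q := by
  constructor
  · intro h Z
    have h1 := h Z
    constructor
    · have h2 := h1.1
      change C.push (snd Y Z) (C.pull (fst Y Z) (C.push f x)) = _ at h2
      rwa [C.base_fst, ← C.push_comp, prodMap_snd, Category.comp_id] at h2
    · have h2 := h1.2
      change C.push (fst Z Y) (C.pull (snd Z Y) (C.push f x)) = _ at h2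
      rwa [C.base_snd, ← C.push_comp, prodMap_fst, Category.comp_id] at h2
  · exact hasDegree_push f

variable (C) in
/-- The ideal of numerically trivial classes. -/
noncomputable def numIdeal : CycleIdeal C where
  I X :=
    { carrier := {a | ∀ b : C.A X, HasDegree C (a * b) 0}
      add_mem' := fun {a a'} ha ha' b => by
        have h := hasDegree_add (ha b) (ha' b)
        rwa [add_zero, ← add_mul] at h
      zero_mem' := fun b => by
        rw [zero_mul]
        exact hasDegree_zero
      smul_mem' := fun q a ha b => by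
        have h := hasDegree_smul q (ha b)
        rwa [mul_zero, ← smul_mul_assoc] at h }
  push_mem f a ha b := by
    rw [← C.proj_right]
    exact hasDegree_push f (ha _)
  pull_mem f a ha b := by
    rw [← hasDegree_push_iff f, C.proj_left]
    exact ha _
  mul_mem b a ha c := by
    rw [ch_comm C b a, mul_assoc]
    exact ha _

lemma mem_numIdeal {i : ℤ} {a : C.A X} :
    NumTrivial C i a ↔ C.Deg i a ∧ a ∈ (numIdeal C).I X := by
  constructor
  · rintro ⟨ha, h⟩
    refine ⟨ha, ?_⟩
    -- the classes `b` with `deg (a b) = 0` form a subspace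
    let N : Submodule ℚ (C.A X) :=
      { carrier := {b | HasDegree C (a * b) 0}
        add_mem' := fun {b b'} hb hb' => by
          have h := hasDegree_add hb hb'
          rw [add_zero, ← mul_add] at h
          exact h
        zero_mem' := by
          change HasDegree C (a * 0) 0
          rw [mul_zero]
          exact hasDegree_zero
        smul_mem' := fun q b hb => by
          have h := hasDegree_smul q hb
          rw [mul_zero, ← mul_smul_comm] at h
          exact h }
    have h1 : ⨆ j, C.gr X j ≤ N := by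
      refine iSup_le fun j b hb => ?_
      by_cases hj : j = X.dim - i
      · subst hj
        exact h b hb
      · exact hasDegree_of_ne (C.mul_mem ha hb) (by omega)
    rw [(C.isInternal X).submodule_iSup_eq_top] at h1
    intro b
    exact h1 (Submodule.mem_top (x := b))
  · rintro ⟨ha, h⟩
    exact ⟨ha, fun b _ => h b⟩

end num

section weil

variable {C : TheoryData.{u, v, 0} 𝒱 ℚ} [hC : IsChowProj C] {K : Type w} [Field K] [CharZero K]
  {H : WeilTheoryData.{u, v, w} C K} [hH : IsWeilProj H] {N I : CycleIdeal C}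
  {X Y Z W E D : 𝒱.Obj}

/-- The `1`-cycles on `X` in the ideal `N` lie in the ideal `I`. -/
def OneInN (N I : CycleIdeal C) (X : 𝒱.Obj) : Prop :=
  ∀ z : C.A X, C.Deg (X.dim - 1) z → z ∈ N.I X → z ∈ I.I X

omit [CharZero K] in
include hC hH in
/-- Homologically trivial classes are numerically trivial. -/
lemma hom_le_num {i : ℤ} {a : C.A X} (ha : C.Deg i a) (h0 : H.cl a = 0) :
    a ∈ (numIdeal C).I X := by
  refine (mem_numIdeal.1 (⟨ha, fun b hb => ?_⟩ : NumTrivial C i a)).2
  refine hasDegree_zero_of_cl H ?_ (by rw [map_mul, h0, zero_mul])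
  have h1 := C.mul_mem ha hb
  have e : i + (X.dim - i) = (X.dim : ℤ) := by ring
  rwa [e] at h1

include hC

lemma OneInN.of_iso (f : X ⟶ Y) (g : Y ⟶ X) (h2 : g ≫ f = 𝟙 Y) (hX : OneInN N I X) :
    OneInN N I Y := by
  intro z hz hz0
  have h := hX (C.push g z) (push_deg_one g hz) (N.push_mem g hz0)
  have h3 := I.push_mem f h
  rwa [← C.push_comp, h2, C.push_id] at h3

lemma graph_part_mem' {o : C.A D} (ho : C.Deg D.dim o) (g : D ⟶ Y) :
    C.comp (mc C o) (C.graph g) ∈ C.gr (D.prod Y) Y.dim := by
  have h := comp_mem C (X := D) (Y := D) (Z := Y) (e := 0) (e' := Y.dim - D.dim)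
    (Γ := mc C o) (Δ := C.graph g) (by rw [add_zero]; exact mc_mem ho)
    (by
      have e : (D.dim : ℤ) + (Y.dim - D.dim) = Y.dim := by ring
      rw [e]
      exact graph_mem g)
  have e : (D.dim : ℤ) + (0 + (Y.dim - D.dim)) = Y.dim := by ring
  rwa [e] at h

/-- Degrees of compositions. -/
lemma comp_deg {a b c : ℤ} {Γ : C.A (X.prod Y)} {Δ : C.A (Y.prod Z)} (hΓ : C.Deg a Γ)
    (hΔ : C.Deg b Δ) (hc : c = a + b - Y.dim) : C.Deg c (C.comp Γ Δ) := by
  have h := comp_mem C (X := X) (Y := Y) (Z := Z) (e := a - X.dim) (e' := b - Y.dim)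
    (Γ := Γ) (Δ := Δ) (by
      have e : (X.dim : ℤ) + (a - X.dim) = a := by ring
      rw [e]
      exact hΓ) (by
      have e : (Y.dim : ℤ) + (b - Y.dim) = b := by ring
      rw [e]
      exact hΔ)
  have e : (X.dim : ℤ) + (a - X.dim + (b - Y.dim)) = c := by rw [hc]; ring
  rwa [e] at h

include hH

/-- Modulo the ideal, the mixed part of the graph of a morphism from a curve to `Y` factors through
the curve `E` which carries `H_1(Y)`. -/
lemma graph_sub_section' (hN : ∀ (X : 𝒱.Obj) (i : ℤ) (a : C.A X), C.Deg i a → H.cl a = 0 →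
      a ∈ N.I X) (hY : OneInN N I (Y.prod D)) (hE : E.dim = 1) {g : C.A (E.prod Y)}
    (hg : C.Deg Y.dim g) {s : C.A (Y.prod E)} (hs : C.Deg 1 s)
    (hgs : ∀ a : H.A Y, H.Deg (2 * Y.dim - 1) a → H.act (H.cl g) (H.act (H.cl s) a) = a)
    (hD : D.dim = 1) {o : C.A D} (ho : C.Deg D.dim o) (ho1 : HasDegree C o 1) (f : D ⟶ Y) :
    C.comp (mc C o) (C.graph f) - C.comp (C.comp (C.comp (mc C o) (C.graph f)) s) g ∈
      I.I (D.prod Y) := by
  set γ := C.comp (mc C o) (C.graph f) with hγ
  have hγm : C.Deg Y.dim γ := graph_part_mem' ho f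
  have h1 : C.Deg 1 (C.comp γ s) := comp_deg hγm hs (by ring)
  have h2 : C.Deg Y.dim (C.comp (C.comp γ s) g) := comp_deg h1 hg (by rw [hE]; push_cast; ring)
  have hO : OneInN N I (D.prod Y) := hY.of_iso (sw Y D) (sw D Y) sw_sw
  refine hO _ ?_ (hN _ Y.dim _ (Submodule.sub_mem _ hγm h2) ?_)
  · have e : (((D.prod Y).dim : ℕ) : ℤ) - 1 = Y.dim := by
      rw [dim_prod, hD]; push_cast; ring
    rw [e]
    exact Submodule.sub_mem _ hγm h2
  · apply hom_zero_of_act H
    intro a
    have h0 : (H.toTheoryData.actL (H.cl (γ - C.comp (C.comp γ s) g))) =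
        (0 : H.A D →ₗ[K] H.A Y) := by
      apply ext_gr H
      intro i a ha
      rw [TheoryData.actL_apply, LinearMap.zero_apply, map_sub, TheoryData.act_sub,
        actH_comp H (C.comp γ s) g, actH_comp H γ s]
      by_cases hi : i = 1
      · subst hi
        rw [hgs, sub_self]
        rw [hγ, actH_comp H]
        have hm1 : H.act (H.cl (mc C o)) a ∈ H.gr D 1 := by
          have hm := H.cl_mem (mc_mem ho)
          have h3 := H.push_mem (snd D D) (H.mul_mem hm (H.pull_mem (fst D D) ha))
          have e : 2 * (D.dim : ℤ) + 1 + 2 * ((D.dim : ℤ) - ((D.prod D).dim : ℤ)) = 1 := by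
            rw [dim_prod]; push_cast; ring
          rw [e] at h3
          exact h3
        have hm2 : H.act (H.cl (C.graph f)) (H.act (H.cl (mc C o)) a) ∈
            H.gr Y (2 * Y.dim - 1) := by
          have hm := H.cl_mem (graph_mem f)
          have h3 := H.push_mem (snd D Y) (H.mul_mem hm (H.pull_mem (fst D Y) hm1))
          have e : 2 * (Y.dim : ℤ) + 1 + 2 * ((Y.dim : ℤ) - ((D.prod Y).dim : ℤ)) =
              2 * Y.dim - 1 := by
            rw [dim_prod, hD]; push_cast; ring
          rw [e] at h3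
          exact h3
        exact hm2
      · have h3 : H.act (H.cl γ) a = 0 := by
          rw [hγ, actH_comp H, mc_actH hD ho ho1 hi ha, TheoryData.act_map_zero]
        rw [h3, TheoryData.act_map_zero, TheoryData.act_map_zero, sub_self]
    have h4 := LinearMap.congr_fun h0 a
    rwa [TheoryData.actL_apply, LinearMap.zero_apply] at h4

/-- The statement for products of two varieties. -/
theorem oneInN_prod (hI : HasFacts I) (hN : ∀ (X : 𝒱.Obj) (i : ℤ) (a : C.A X), C.Deg i a →
      H.cl a = 0 → a ∈ N.I X) (hS : HasCurveSections H)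
    (hX : ∀ D : 𝒱.Obj, D.dim = 1 → OneInN N I (X.prod D))
    (hY : ∀ D : 𝒱.Obj, D.dim = 1 → OneInN N I (Y.prod D)) (hY' : OneInN N I Y)
    (hX' : OneInN N I X) : OneInN N I (X.prod Y) := by
  intro z hz hz0
  obtain ⟨E, g, s, hE, hg, hs, hgs⟩ := hS Y
  obtain ⟨a, ha, ha1⟩ := exists_point (C := C) X
  obtain ⟨b, hb, hb1⟩ := exists_point (C := C) Y
  have key : mixed C a b z - C.comp (C.comp (mixed C a b z) s) g ∈ I.I (X.prod Y) := by
    have h := hI.oneCycles _ z hz
    refine Submodule.span_induction (p := fun z _ => mixed C a b z -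
      C.comp (C.comp (mixed C a b z) s) g ∈ I.I (X.prod Y)) ?_ ?_ ?_ ?_ h
    · rintro y ⟨D, F, hD, rfl⟩
      obtain ⟨o, ho, ho1⟩ := exists_point (C := C) D
      have h1 := mixed_curve hI ho ho1 ha ha1 hb hb1 F
      have h2 := graph_sub_section' (H := H) (I := I) hN (hY D hD) hE hg hs hgs hD ho ho1
        (F ≫ snd X Y)
      set γ := C.comp (mc C o) (C.graph (F ≫ snd X Y)) with hγ
      set m := mixed C a b (C.push F 1) with hm
      set c := C.comp (C.cograph (F ≫ fst X Y)) γ with hc
      have h3 : C.comp (C.comp (m - c) s) g ∈ I.I _ := I.comp_left _ (I.comp_left _ h1)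
      have h4 : C.comp (C.cograph (F ≫ fst X Y)) (γ - C.comp (C.comp γ s) g) ∈ I.I _ :=
        I.comp_right _ h2
      rw [comp_sub, ← comp_assoc C _ _ g, ← comp_assoc C _ _ s, ← hc] at h4
      rw [sub_comp, sub_comp] at h3
      have h5 := Submodule.add_mem _ (Submodule.sub_mem _ h1 h3) h4
      convert h5 using 1
      abel
    · have h0 := mixed_smul a b 0 (0 : C.A (X.prod Y))
      rw [zero_smul, zero_smul] at h0
      rw [h0, zero_comp, zero_comp, sub_zero]
      exact Submodule.zero_mem _
    · intro x y _ _ hx hy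
      rw [mixed_add, add_comp, add_comp, add_sub_add_comm]
      exact Submodule.add_mem _ hx hy
    · intro q x _ hx
      have e1 : C.comp (C.comp (q • mixed C a b x) s) g =
          q • C.comp (C.comp (mixed C a b x) s) g := by
        simp only [← compL_apply, map_smul, LinearMap.smul_apply]
      rw [mixed_smul, e1, ← smul_sub]
      exact Submodule.smul_mem _ q hx
  have n1 : C.push (fst X Y) z ∈ N.I X := N.push_mem _ hz0
  have n2 : C.push (snd X Y) z ∈ N.I Y := N.push_mem _ hz0
  have p1 : C.push (fst X Y) z ∈ I.I X := hX' _ (push_deg_one _ hz) n1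
  have p2 : C.push (snd X Y) z ∈ I.I Y := hY' _ (push_deg_one _ hz) n2
  have q1 : C.ext (C.push (fst X Y) z) b ∈ I.I _ := I.ext_left _ p1
  have q2 : C.ext a (C.push (snd X Y) z) ∈ I.I _ := I.ext_right _ p2
  have hm0 : mixed C a b z ∈ N.I _ :=
    Submodule.sub_mem _ (Submodule.sub_mem _ hz0 (N.ext_right _ n2)) (N.ext_left _ n1)
  have hmd : C.Deg ((X.prod Y).dim - 1) (mixed C a b z) := by
    have e1 := ext_mem' ha (push_deg_one (snd X Y) hz)
    have e2 := ext_mem' (push_deg_one (fst X Y) hz) hb
    have e3 : (X.dim : ℤ) + (Y.dim - 1) = ((X.prod Y).dim : ℤ) - 1 := by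
      rw [dim_prod]; push_cast; ring
    have e4 : (X.dim : ℤ) - 1 + Y.dim = ((X.prod Y).dim : ℤ) - 1 := by
      rw [dim_prod]; push_cast; ring
    rw [e3] at e1
    rw [e4] at e2
    exact Submodule.sub_mem _ (Submodule.sub_mem _ hz e1) e2
  have hw : C.comp (mixed C a b z) s ∈ I.I (X.prod E) :=
    hX E hE _ (comp_deg hmd hs (by rw [dim_prod, dim_prod, hE]; push_cast; ring))
      (N.comp_left _ hm0)
  have h6 := Submodule.add_mem _ key (I.comp_left g hw)
  rw [sub_add_cancel] at h6
  have h7 := Submodule.add_mem _ (Submodule.add_mem _ h6 q1) q2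
  rw [mixed] at h7
  convert h7 using 1
  abel

omit hH in
/-- The statement for a product with a curve implies the statement for the variety. -/
lemma oneInN_of_curve (h : OneInN N I (X.prod E)) (hE : E.dim = 1) : OneInN N I X := by
  intro z hz hz0
  obtain ⟨o, ho, ho1⟩ := exists_point (C := C) E
  have h1 := h (C.ext z o) (by
    have e1 := ext_mem' hz ho
    have e2 : (X.dim : ℤ) - 1 + E.dim = ((X.prod E).dim : ℤ) - 1 := by
      rw [dim_prod, hE]; push_cast; ring
    rwa [e2] at e1) (N.ext_left _ hz0)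
  have h2 := I.push_mem (fst X E) h1
  have h3 : C.push (fst X E) (C.ext z o) = z := by
    rw [TheoryData.ext, C.proj_left]
    have := (ho1 X).2
    change C.push (fst X E) (C.pull (snd X E) o) = _ at this
    rw [this, one_smul, mul_one]
  rwa [h3] at h2

/-- Stability under products. -/
theorem oneInN_products (hI : HasFacts I) (hm : HasModDiag I) (hN : ∀ (X : 𝒱.Obj) (i : ℤ)
      (a : C.A X), C.Deg i a → H.cl a = 0 → a ∈ N.I X) (hS : HasCurveSections H)
    (hX : ∀ D : 𝒱.Obj, D.dim = 1 → OneInN N I (X.prod D))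
    (hY : ∀ D : 𝒱.Obj, D.dim = 1 → OneInN N I (Y.prod D)) (hD : D.dim = 1) :
    OneInN N I ((X.prod Y).prod D) := by
  obtain ⟨E, -, -, hE, -⟩ := hS X
  have h1 : OneInN N I (X.prod Y) := oneInN_prod hI hN hS hX hY (oneInN_of_curve (hY E hE) hE)
    (oneInN_of_curve (hX E hE) hE)
  have h2 : OneInN N I (X.prod (Y.prod D)) := by
    intro z hz hz0
    exact mem_of_three hI hm hz (h1 _ (push_deg_one _ hz) (N.push_mem _ hz0))
      (hX D hD _ (push_deg_one _ hz) (N.push_mem _ hz0))
      (hY D hD _ (push_deg_one _ hz) (N.push_mem _ hz0))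
  exact h2.of_iso (aJ X Y D) (aI X Y D) aI_aJ

omit hH in
/-- Stability under supports of zero-cycles. -/
theorem oneInN_support (hz : ∀ (X : 𝒱.Obj) (x : C.A X), C.Deg X.dim x → x ∈ N.I X → x ∈ I.I X)
    (hD : D.dim = 1) {m n : ℕ} {B : Fin m → 𝒱.Obj}
    (hB : ∀ i, OneInN N I ((B i).prod D)) {ι : ∀ i, B i ⟶ X} {u : ∀ i, C.A ((B i).prod X)}
    (hu : ∀ i, C.Deg (B i).dim (u i)) {F : Fin n → 𝒱.Obj} (hF : ∀ j, (F j).dim < X.dim)
    {κ : ∀ j, F j ⟶ X} {W : ∀ j, C.A (X.prod (F j))}
    (hΔ : dg C X = ∑ i, C.down (prodMap (ι i) (𝟙 X)) (u i) +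
        ∑ j, C.down (prodMap (𝟙 X) (κ j)) (W j)) : OneInN N I (X.prod D) := by
  intro z hz1 hz0
  have hz2 : C.Deg X.dim z := by
    have e : (((X.prod D).dim : ℕ) : ℤ) - 1 = X.dim := by
      rw [dim_prod, hD]; push_cast; ring
    rwa [e] at hz1
  have e0 : z = ∑ i, C.comp (C.down (prodMap (ι i) (𝟙 X)) (u i)) z +
      ∑ j, C.comp (C.down (prodMap (𝟙 X) (κ j)) (W j)) z := by
    conv_lhs => rw [← dg_comp C z, hΔ, add_comp, sum_comp, sum_comp]
  rw [e0]
  refine Submodule.add_mem _ (Submodule.sum_mem _ fun i _ => ?_)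
    (Submodule.sum_mem _ fun j _ => ?_)
  · have e1 : C.push (prodMap (ι i) (𝟙 X)) (u i) = C.comp (C.cograph (ι i)) (u i) := by
      rw [TheoryData.comp, TheoryData.cograph, C.base_fst, ← C.proj_left, ← C.push_comp, map_one,
        mul_one, ← C.pull_comp]
      have e2 : prodMap (Obj.lift (ι i) (𝟙 (B i))) (𝟙 X) ≫ t13 X (B i) X =
          prodMap (ι i) (𝟙 X) := by
        apply prod_ext <;> simp [t13]
      have e3 : prodMap (Obj.lift (ι i) (𝟙 (B i))) (𝟙 X) ≫ t23 X (B i) X = 𝟙 _ := by
        apply prod_ext <;> simp [t23]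
      rw [e2, e3, C.pull_id]
    change C.comp (C.push (prodMap (ι i) (𝟙 X)) (u i)) z ∈ _
    rw [e1, comp_assoc C]
    apply I.comp_right
    refine hB i _ (comp_deg (hu i) hz2 ?_) (N.comp_right _ hz0)
    rw [dim_prod, hD]; push_cast; ring
  · have e1 : C.push (prodMap (𝟙 X) (κ j)) (W j) = C.comp (W j) (C.graph (κ j)) := by
      rw [comp_eq_extR, extR_graph]
    change C.comp (C.push (prodMap (𝟙 X) (κ j)) (W j)) z ∈ _
    rw [e1, comp_assoc C]
    apply I.comp_right
    have hd : C.Deg X.dim (C.comp (C.graph (κ j)) z) := comp_deg (graph_mem (κ j)) hz2 (by ring)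
    by_cases h : ((F j).prod D).dim = X.dim
    · refine hz _ _ ?_ (N.comp_right _ hz0)
      rw [h]
      exact hd
    · have h2 := hC.gr_top ((F j).prod D) X.dim _ hd (by
        have h3 := hF j
        rw [dim_prod, hD] at h ⊢
        push_cast
        omega)
      rw [h2]
      exact Submodule.zero_mem _

/-- The conjecture for the members of the class generated by `S`. -/
theorem oneInN_generated (hI : HasFacts I) (hm : HasModDiag I) (hN : ∀ (X : 𝒱.Obj) (i : ℤ)
      (a : C.A X), C.Deg i a → H.cl a = 0 → a ∈ N.I X)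
    (hz : ∀ (X : 𝒱.Obj) (x : C.A X), C.Deg X.dim x → x ∈ N.I X → x ∈ I.I X)
    (hS : HasCurveSections H) {S : 𝒱.Obj → Prop}
    (h : ∀ X, S X → ∀ D : 𝒱.Obj, D.dim = 1 → OneInN N I (X.prod D)) (hX : Generated C S X) :
    (∀ D : 𝒱.Obj, D.dim = 1 → OneInN N I (X.prod D)) ∧ OneInN N I X := by
  have key : ∀ D : 𝒱.Obj, D.dim = 1 → OneInN N I (X.prod D) := by
    induction hX with
    | base B hB => exact h B hB
    | product X Y _ _ ihX ihY =>
      intro D hD
      exact oneInN_products hI hm hN hS ihX ihY hD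
    | support X m n B _ ι u hu F hF' κ W hΔ ih =>
      intro D hD
      exact oneInN_support hz hD (fun i => ih i D hD) hu hF' hΔ
  obtain ⟨E, -, -, hE, -⟩ := hS X
  exact ⟨key, oneInN_of_curve (key E hE) hE⟩

variable (H) in
/-- The ideal of homologically trivial classes. -/
noncomputable def homIdeal : CycleIdeal C where
  I X :=
    { carrier := {a | H.cl a = 0}
      add_mem' := fun {a b} ha hb => by
        change H.cl (a + b) = 0
        rw [map_add, show H.cl a = 0 from ha, show H.cl b = 0 from hb, add_zero]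
      zero_mem' := map_zero _
      smul_mem' := fun q a ha => by
        change H.cl (q • a) = 0
        rw [Algebra.smul_def, map_mul, show H.cl a = 0 from ha, mul_zero] }
  push_mem f a ha := by
    change H.cl (C.push f a) = 0
    rw [H.cl_push, show H.cl a = 0 from ha, map_zero]
  pull_mem f a ha := by
    change H.cl (C.pull f a) = 0
    rw [H.cl_pull, show H.cl a = 0 from ha, map_zero]
  mul_mem b a ha := by
    change H.cl (b * a) = 0
    rw [map_mul, show H.cl a = 0 from ha, mul_zero]

/-- **Theorem.** The class of varieties satisfying `HomOneCurves` is closed under products and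
supports of zero-cycles. -/
theorem homOneCurves_generated (hF : HasCurveFacts C) (hS : HasCurveSections H)
    {S : 𝒱.Obj → Prop} (h : ∀ X, S X → HomOneCurves H X) (hX : Generated C S X) :
    HomOneCurves H X ∧ HomOne H X := by
  have hm : HasModDiag (smashIdeal C) := fun D hD => hF.modifiedDiagonal D hD
  exact oneInN_generated (N := homIdeal H) (I := smashIdeal C) (H := H) hF.hasFacts hm
    (fun X i a _ h0 => h0) (fun X x hx hx0 => hF.zeroCycles X x hx
      (hasDegree_zero_of_cl H hx hx0)) hS h hX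

end weil

end Pool.Agent.TH862.SN
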