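import Pool.Agent.TH862.SN.Main
import Pool.Agent.TH862.SN.DefsHom
import Pool.Agent.TH133.Sq
import Pool.Agent.TH133.AlgEq

/-!
# Homologically trivial one-cycles on products with curves
-/

open CategoryTheory AlgebraicGeometry

universe u v w

namespace Pool.Agent.TH862.SN

open Pool.Agent.H914 Pool.Agent.H914.VarClass Pool.Agent.H914.VarClass.Obj Pool.Agent.W492.BB
  Pool.Agent.W550.Corr Pool.Agent.TH133

set_option linter.unusedSectionVars false

variable {k : Type u} [Field k] {𝒱 : VarClass k}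

section chow

variable {C : TheoryData.{u, v, 0} 𝒱 ℚ} [hC : IsChowProj C] {I : CycleIdeal C} {X Y Z W : 𝒱.Obj}

include hC

lemma CycleIdeal.comp_left (I : CycleIdeal C) {Γ : C.A (X.prod Y)} (Δ : C.A (Y.prod Z))
    (h : Γ ∈ I.I _) : C.comp Γ Δ ∈ I.I _ :=
  I.push_mem _ (I.mul_mem _ (I.pull_mem _ h))

lemma CycleIdeal.comp_right (I : CycleIdeal C) (Γ : C.A (X.prod Y)) {Δ : C.A (Y.prod Z)}
    (h : Δ ∈ I.I _) : C.comp Γ Δ ∈ I.I _ :=
  I.push_mem _ (I.mul_mem' _ (I.pull_mem _ h))

/-- The middle part `Δ - o × D - D × o` of the diagonal of a curve. -/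
noncomputable def mc (C : TheoryData.{u, v, 0} 𝒱 ℚ) {D : 𝒱.Obj} (o : C.A D) : C.A (D.prod D) :=
  dg C D - C.ext o 1 - C.ext 1 o

/-- The part of a `1`-cycle on `X × Y` not coming from the factors. -/
noncomputable def mixed (C : TheoryData.{u, v, 0} 𝒱 ℚ) (a : C.A X) (b : C.A Y)
    (z : C.A (X.prod Y)) : C.A (X.prod Y) :=
  z - C.ext a (C.push (snd X Y) z) - C.ext (C.push (fst X Y) z) b

lemma cograph_mc_graph {D : 𝒱.Obj} (o : C.A D) (f : D ⟶ X) (g : D ⟶ Y) :
    C.comp (C.cograph f) (C.comp (mc C o) (C.graph g)) =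
      C.push (Obj.lift f g) 1 - C.ext (C.push f o) (C.push g 1)
        - C.ext (C.push f 1) (C.push g o) := by
  rw [mc, sub_comp, sub_comp, dg_comp, comp_sub, comp_sub, cograph_comp_graph, ext_comp',
    ext_comp', C.act_graph, C.act_graph, comp_ext', comp_ext', tp_cograph, C.act_graph,
    C.act_graph]

/-- The mixed part of the image of a curve. -/
lemma mixed_curve (hI : HasFacts I) {D : 𝒱.Obj} {o : C.A D}
    (ho : C.Deg D.dim o) (ho1 : HasDegree C o 1) {a : C.A X} (ha : C.Deg X.dim a)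
    (ha1 : HasDegree C a 1) {b : C.A Y} (hb : C.Deg Y.dim b) (hb1 : HasDegree C b 1)
    (F : D ⟶ X.prod Y) :
    mixed C a b (C.push F 1) - C.comp (C.cograph (F ≫ fst X Y))
      (C.comp (mc C o) (C.graph (F ≫ snd X Y))) ∈ I.I (X.prod Y) := by
  set f := F ≫ fst X Y with hf
  set g := F ≫ snd X Y with hg
  have eF : F = Obj.lift f g := by
    apply prod_ext
    · rw [lift_fst]
    · rw [lift_snd]
  rw [cograph_mc_graph, mixed, ← C.push_comp, ← C.push_comp, ← hf, ← hg, ← eF]
  have m1 : C.push f o - a ∈ I.I X :=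
    sub_mem_of_degree hI (push_mem_top f ho) ha (hasDegree_push f ho1) ha1
  have m2 : C.push g o - b ∈ I.I Y :=
    sub_mem_of_degree hI (push_mem_top g ho) hb (hasDegree_push g ho1) hb1
  have k1 : C.ext (C.push f o - a) (C.push g 1) ∈ I.I _ := I.ext_left _ m1
  have k2 : C.ext (C.push f 1) (C.push g o - b) ∈ I.I _ := I.ext_right _ m2
  have key := Submodule.add_mem _ k1 k2
  convert key using 1
  simp only [TheoryData.ext, map_sub, mul_sub, sub_mul]
  abel

lemma mixed_add (a : C.A X) (b : C.A Y) (z z' : C.A (X.prod Y)) :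
    mixed C a b (z + z') = mixed C a b z + mixed C a b z' := by
  simp only [mixed, TheoryData.ext, map_add, mul_add, add_mul]
  abel

lemma mixed_smul (a : C.A X) (b : C.A Y) (q : ℚ) (z : C.A (X.prod Y)) :
    mixed C a b (q • z) = q • mixed C a b z := by
  simp only [mixed, TheoryData.ext, map_smul, smul_mul_assoc, mul_smul_comm, smul_sub]

/-- The middle part of the diagonal acts as zero on `CH^0`. -/
lemma mc_act_one {D : 𝒱.Obj} (hD : D.dim = 1) {o : C.A D} (ho1 : HasDegree C o 1) :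
    C.act (mc C o) (1 : C.A D) = 0 := by
  have c0 : C.act (C.ext o (1 : C.A D)) (1 : C.A D) = (1 : ℚ) • (1 : C.A D) :=
    act_ext' (by rwa [mul_one])
  have c1 : C.act (C.ext (1 : C.A D) o) (1 : C.A D) = (0 : ℚ) • o :=
    act_ext' (by rw [mul_one]; exact hasDegree_of_ne (C.one_mem D) (by rw [hD]; norm_num))
  rw [mc, C.act_sub, C.act_sub, act_dg, c0, c1, one_smul, zero_smul, sub_zero, sub_self]

/-- The middle part of the diagonal kills the chosen point. -/
lemma mc_act_point {D : 𝒱.Obj} (hD : D.dim = 1) {o : C.A D} (ho : C.Deg D.dim o)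
    (ho1 : HasDegree C o 1) : C.act (mc C o) o = 0 := by
  have c0 : C.act (C.ext o (1 : C.A D)) o = (0 : ℚ) • (1 : C.A D) :=
    act_ext' (hasDegree_of_ne (C.mul_mem ho ho) (by rw [hD]; norm_num))
  have c1 : C.act (C.ext (1 : C.A D) o) o = (1 : ℚ) • o := act_ext' (by rwa [one_mul])
  rw [mc, C.act_sub, C.act_sub, act_dg, c0, c1, one_smul, zero_smul, sub_zero, sub_self]

lemma mc_mem {D : 𝒱.Obj} {o : C.A D} (ho : C.Deg D.dim o) :
    mc C o ∈ C.gr (D.prod D) D.dim := by
  have h1 := ext_mem' ho (C.one_mem D)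
  have h2 := ext_mem' (C.one_mem D) ho
  rw [add_zero] at h1
  rw [zero_add] at h2
  exact Submodule.sub_mem _ (Submodule.sub_mem _ (dg_mem C D) h1) h2

end chow

section weil

variable {C : TheoryData.{u, v, 0} 𝒱 ℚ} [hC : IsChowProj C] {K : Type w} [Field K] [CharZero K]
  {H : WeilTheoryData.{u, v, w} C K} [hH : IsWeilProj H] {X Y Z W : 𝒱.Obj}

include hC hH

/-- `H^2` of a curve is spanned by the class of a point. -/
lemma top_of_curve {D : 𝒱.Obj} {o : C.A D} (ho : C.Deg D.dim o)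
    (ho1 : HasDegree C o 1) {a : H.A D} (ha : H.Deg (2 * D.dim) a) :
    ∃ c : K, a = c • H.cl o := by
  obtain ⟨q, hq, hq1⟩ := exists_tr_const H D
  have htr : H.tr D (H.cl o) = q := by
    have := hq1 o 1 ho ho1
    rwa [Rat.cast_one, one_mul] at this
  refine ⟨H.tr D a / q, ?_⟩
  rw [← sub_eq_zero]
  have hm : a - (H.tr D a / q) • H.cl o ∈ H.gr D (2 * D.dim) :=
    Submodule.sub_mem _ ha (Submodule.smul_mem _ _ (H.cl_mem ho))
  have ht : H.tr D (a - (H.tr D a / q) • H.cl o) = 0 := by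
    rw [map_sub, map_smul, htr, smul_eq_mul, div_mul_cancel₀ _ hq, sub_self]
  apply H.nondeg
  intro b
  have h2 : (H.tr D) ∘ₗ (LinearMap.mulLeft K (a - (H.tr D a / q) • H.cl o)) = 0 := by
    apply ext_gr H
    intro i c hc
    rw [LinearMap.comp_apply, LinearMap.mulLeft_apply, LinearMap.zero_apply]
    by_cases hi : i = 0
    · subst hi
      obtain ⟨c, rfl⟩ := hH.gr_zero D c hc
      rw [mul_smul_comm, mul_one, map_smul, ht, smul_zero]
    · apply tr_zero H (H.mul_mem hm hc)
      omega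
  exact LinearMap.congr_fun h2 b

/-- The middle part of the diagonal of a curve acts as zero on `H^i`, `i ≠ 1`. -/
lemma mc_actH {D : 𝒱.Obj} (hD : D.dim = 1) {o : C.A D} (ho : C.Deg D.dim o)
    (ho1 : HasDegree C o 1) {i : ℤ} (hi : i ≠ 1) {a : H.A D} (ha : a ∈ H.gr D i) :
    H.act (H.cl (mc C o)) a = 0 := by
  rcases lt_trichotomy i 0 with h | h | h
  · rw [H.gr_neg D i h] at ha
    rw [(Submodule.mem_bot K).1 ha, TheoryData.act_map_zero]
  · subst h
    obtain ⟨c, rfl⟩ := hH.gr_zero D a ha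
    rw [act_map_smul]
    have h1 : H.act (H.cl (mc C o)) (1 : H.A D) = 0 := by
      rw [← map_one H.cl, ← cl_act H, mc_act_one hD ho1, map_zero]
    rw [h1, smul_zero]
  · by_cases h2 : i = 2
    · subst h2
      obtain ⟨c, rfl⟩ := top_of_curve (H := H) ho ho1 (a := a) (by
        change a ∈ H.gr D (2 * D.dim)
        rw [hD]
        exact_mod_cast ha)
      rw [act_map_smul, ← cl_act H, mc_act_point hD ho ho1, map_zero, smul_zero]
    · rw [gr_top H (by rw [hD]; push_cast; omega)] at ha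
      rw [(Submodule.mem_bot K).1 ha, TheoryData.act_map_zero]

end weil

end Pool.Agent.TH862.SN
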