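import Pool.Agent.TH862.SN.Defs
import Pool.Agent.TH133.Tens

/-!
# Smash-nilpotent cycles form an ideal stable under push-forwards and pull-backs
-/

open CategoryTheory AlgebraicGeometry

universe u v w

namespace Pool.Agent.TH862.SN

open Pool.Agent.H914 Pool.Agent.H914.VarClass Pool.Agent.H914.VarClass.Obj Pool.Agent.W492.BB
  Pool.Agent.W550.Corr Pool.Agent.TH133

set_option linter.unusedSectionVars false

variable {k : Type u} [Field k] {𝒱 : VarClass k}

section one

variable {C : TheoryData.{u, v, 0} 𝒱 ℚ} [hC : IsChowProj C] {X Y Z W : 𝒱.Obj}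

/-- The commutative ring `CH(X)`. -/
@[reducible] noncomputable def crA (C : TheoryData.{u, v, 0} 𝒱 ℚ) [hC : IsChowProj C] (X : 𝒱.Obj) :
    CommRing (C.A X) :=
  { C.ring X with mul_comm := fun a b => chow_mul_comm a b }

/-- The morphism `f × ⋯ × f`. -/
noncomputable def powMap (f : X ⟶ Y) : (n : ℕ) → (powObj X n ⟶ powObj Y n)
  | 0 => f
  | n + 1 => prodMap f (powMap f n)

include hC

lemma extPow_pull (f : X ⟶ Y) (a : C.A Y) (n : ℕ) :
    extPow C (C.pull f a) n = C.pull (powMap f n) (extPow C a n) := by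
  induction n with
  | zero => rfl
  | succ n ih =>
    change C.ext (C.pull f a) (extPow C (C.pull f a) n) =
      C.pull (prodMap f (powMap f n)) (C.ext a (extPow C a n))
    rw [pull_ext, ih]

lemma extPow_push (f : X ⟶ Y) (a : C.A X) (n : ℕ) :
    extPow C (C.push f a) n = C.push (powMap f n) (extPow C a n) := by
  induction n with
  | zero => rfl
  | succ n ih =>
    change C.ext (C.push f a) (extPow C (C.push f a) n) =
      C.push (prodMap f (powMap f n)) (C.ext a (extPow C a n))
    rw [push_ext, ih]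

omit hC in
/-- The product of the pull-backs of `a` along `n` morphisms vanishes. -/
def ProdZero (C : TheoryData.{u, v, 0} 𝒱 ℚ) [hC : IsChowProj C] {X : 𝒱.Obj} (a : C.A X) (n : ℕ) :
    Prop :=
  ∀ (W : 𝒱.Obj) (g : Fin n → (W ⟶ X)),
    letI := crA C W
    ∏ i, C.pull (g i) a = 0

lemma pull_extPow (a : C.A X) (n : ℕ) (W : 𝒱.Obj) (g : Fin (n + 1) → (W ⟶ X)) :
    letI := crA C W
    ∃ G : W ⟶ powObj X n, C.pull G (extPow C a n) = ∏ i, C.pull (g i) a := by
  letI := crA C W
  induction n with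
  | zero =>
    refine ⟨g 0, ?_⟩
    rw [Fin.prod_univ_succ, Fin.prod_univ_zero]
    exact (mul_one _).symm
  | succ n ih =>
    obtain ⟨G, hG⟩ := ih (fun i => g i.succ)
    refine ⟨Obj.lift (g 0) G, ?_⟩
    rw [Fin.prod_univ_succ, ← hG]
    change C.pull (Obj.lift (g 0) G) (C.pull (fst X (powObj X n)) a *
      C.pull (snd X (powObj X n)) (extPow C a n)) = _
    rw [map_mul, ← C.pull_comp, ← C.pull_comp, lift_fst, lift_snd]

lemma extPow_eq_prod (a : C.A X) (n : ℕ) :
    letI := crA C (powObj X n)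
    ∃ g : Fin (n + 1) → (powObj X n ⟶ X), extPow C a n = ∏ i, C.pull (g i) a := by
  induction n with
  | zero =>
    letI := crA C (powObj X 0)
    refine ⟨fun _ => 𝟙 X, ?_⟩
    rw [Fin.prod_univ_succ, Fin.prod_univ_zero]
    change a = C.pull (𝟙 X) a * 1
    rw [C.pull_id, mul_one]
  | succ n ih =>
    obtain ⟨g, hg⟩ := ih
    letI := crA C (powObj X n)
    letI := crA C (powObj X (n + 1))
    letI := crA C (X.prod (powObj X n))
    refine ⟨Fin.cases (fst X (powObj X n)) (fun i => snd X (powObj X n) ≫ g i), ?_⟩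
    rw [Fin.prod_univ_succ]
    change C.pull (fst X (powObj X n)) a * C.pull (snd X (powObj X n)) (extPow C a n) = _
    rw [hg, map_prod]
    congr 1
    refine Finset.prod_congr rfl fun i _ => ?_
    exact (C.pull_comp (snd X (powObj X n)) (g i) a).symm

lemma smashNilpotent_iff (a : C.A X) : SmashNilpotent C a ↔ ∃ n, ProdZero C a n := by
  constructor
  · rintro ⟨n, hn⟩
    refine ⟨n + 1, fun W g => ?_⟩
    obtain ⟨G, hG⟩ := pull_extPow a n W g
    rw [← hG, hn, map_zero]
  · rintro ⟨n, hn⟩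
    cases n with
    | zero =>
      refine ⟨0, ?_⟩
      have h := hn X (fun i => i.elim0)
      letI := crA C X
      have h1 : (1 : C.A X) = 0 := by simpa using h
      change a = 0
      rw [← one_mul a, h1, zero_mul]
    | succ n =>
      obtain ⟨g, hg⟩ := extPow_eq_prod a n
      exact ⟨n, by rw [hg]; exact hn _ g⟩

lemma prodZero_mono {a : C.A X} {m n : ℕ} (h : ProdZero C a m) (hmn : m ≤ n) :
    ProdZero C a n := by
  intro W g
  letI := crA C W
  have h1 : ∏ i : Fin m, C.pull (g (Fin.castLE hmn i)) a = 0 := h W _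
  rw [← Finset.prod_image (s := Finset.univ) (g := Fin.castLE hmn) (f := fun i => C.pull (g i) a)
    (fun _ _ _ _ h => Fin.castLE_injective hmn h)] at h1
  exact zero_dvd_iff.1 (h1 ▸ Finset.prod_dvd_prod_of_subset _ _ _ (Finset.subset_univ _))

/-- For a set of indices with at least `m` elements. -/
lemma ProdZero.finset {a : C.A X} {m : ℕ} (h : ProdZero C a m) {W : 𝒱.Obj} {ι : Type}
    (s : Finset ι) (hs : m ≤ s.card) (g : ι → (W ⟶ X)) :
    letI := crA C W
    ∏ i ∈ s, C.pull (g i) a = 0 := by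
  letI := crA C W
  have h1 := prodZero_mono h hs W (fun i => g (s.equivFin.symm i))
  have h2 : ∏ i : Fin s.card, C.pull (g (s.equivFin.symm i)) a = ∏ i ∈ s, C.pull (g i) a := by
    rw [← Finset.prod_coe_sort s (fun i => C.pull (g i) a)]
    exact Fintype.prod_equiv s.equivFin.symm _ _ (fun _ => rfl)
  exact h2 ▸ h1

lemma SmashNilpotent.add {a b : C.A X} (ha : SmashNilpotent C a) (hb : SmashNilpotent C b) :
    SmashNilpotent C (a + b) := by
  classical
  rw [smashNilpotent_iff] at ha hb ⊢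
  obtain ⟨m, hm⟩ := ha
  obtain ⟨n, hn⟩ := hb
  refine ⟨m + n, fun W g => ?_⟩
  letI := crA C W
  have h1 : ∏ i, C.pull (g i) (a + b) = ∏ i, (C.pull (g i) a + C.pull (g i) b) :=
    Finset.prod_congr rfl fun i _ => map_add _ _ _
  rw [h1, Finset.prod_add]
  refine Finset.sum_eq_zero fun s _ => ?_
  by_cases hs : m ≤ s.card
  · rw [hm.finset s hs g, zero_mul]
  · rw [hn.finset (Finset.univ \ s) ?_ g, mul_zero]
    rw [Finset.card_sdiff_of_subset (Finset.subset_univ _), Finset.card_univ, Fintype.card_fin]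
    omega

lemma SmashNilpotent.pull (f : X ⟶ Y) {a : C.A Y} (ha : SmashNilpotent C a) :
    SmashNilpotent C (C.pull f a) := by
  obtain ⟨n, hn⟩ := ha
  exact ⟨n, by rw [extPow_pull, hn, map_zero]⟩

lemma SmashNilpotent.push (f : X ⟶ Y) {a : C.A X} (ha : SmashNilpotent C a) :
    SmashNilpotent C (C.push f a) := by
  obtain ⟨n, hn⟩ := ha
  exact ⟨n, by rw [extPow_push, hn, map_zero]⟩

lemma SmashNilpotent.mul_left (b : C.A X) {a : C.A X} (ha : SmashNilpotent C a) :
    SmashNilpotent C (b * a) := by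
  rw [smashNilpotent_iff] at ha ⊢
  obtain ⟨m, hm⟩ := ha
  refine ⟨m, fun W g => ?_⟩
  letI := crA C W
  have h1 : ∏ i, C.pull (g i) (b * a) = ∏ i, (C.pull (g i) b * C.pull (g i) a) :=
    Finset.prod_congr rfl fun i _ => map_mul _ _ _
  rw [h1, Finset.prod_mul_distrib]
  have h2 : ∏ i, C.pull (g i) a = 0 := hm W g
  rw [h2, mul_zero]

lemma smashNilpotent_zero : SmashNilpotent C (0 : C.A X) := ⟨0, rfl⟩

end one

end Pool.Agent.TH862.SN
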