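import Pool.Agent.TH862.SN.Three

/-!
# One-cycles on products of several varieties
-/

open CategoryTheory AlgebraicGeometry

universe u v w

namespace Pool.Agent.TH862.SN

open Pool.Agent.H914 Pool.Agent.H914.VarClass Pool.Agent.H914.VarClass.Obj Pool.Agent.W492.BB
  Pool.Agent.W550.Corr Pool.Agent.TH133

set_option linter.unusedSectionVars false

variable {k : Type u} [Field k] {𝒱 : VarClass k}

variable {C : TheoryData.{u, v, 0} 𝒱 ℚ} [hC : IsChowProj C] {I : CycleIdeal C} {X Y Z : 𝒱.Obj}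

lemma mem_of_eq' {M : Type*} [AddCommGroup M] [Module ℚ M] {N : Submodule ℚ M} {a b : M}
    (h : a = b) (hb : b ∈ N) : a ∈ N := h ▸ hb

lemma lift_aux {P R A B A' B' : 𝒱.Obj} (q : P ⟶ R) (a : R ⟶ A) (b : R ⟶ B) (a' : P ⟶ A')
    (b' : P ⟶ B') (u : A' ⟶ A) (v : B' ⟶ B) (ha : q ≫ a = a' ≫ u) (hb : q ≫ b = b' ≫ v) :
    q ≫ Obj.lift a b = Obj.lift a' b' ≫ prodMap u v := by
  rw [comp_lift, lift_prodMap, ha, hb]

/-- The modified diagonals of curves lie in the ideal. -/
def HasModDiag (I : CycleIdeal C) : Prop :=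
  ∀ D : 𝒱.Obj, D.dim = 1 → ∃ o : C.A D, C.Deg 1 o ∧ HasDegree C o 1 ∧ modDiag C D o ∈ I.I _

include hC

lemma sub_pairPart_mem (hI : HasFacts I) (hm : HasModDiag I) {a : C.A X}
    (ha : C.Deg X.dim a) (ha1 : HasDegree C a 1) {b : C.A Y} (hb : C.Deg Y.dim b)
    (hb1 : HasDegree C b 1) {c : C.A Z} (hc : C.Deg Z.dim c) (hc1 : HasDegree C c 1)
    {z : C.A (X.prod (Y.prod Z))} (hz : C.Deg ((X.prod (Y.prod Z)).dim - 1) z) :
    z - pairPart C a b c z ∈ I.I (X.prod (Y.prod Z)) := by
  have h := hI.oneCycles _ z hz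
  refine Submodule.span_induction (p := fun z _ => z - pairPart C a b c z ∈ I.I _) ?_ ?_ ?_ ?_ h
  · rintro y ⟨D, f, hD, rfl⟩
    obtain ⟨o, ho, ho1, hmd⟩ := hm D hD
    exact curve_sub_pairPart hI hD ho ho1 hmd ha ha1 hb hb1 hc hc1 f
  · have h0 := pairPart_smul a b c 0 (0 : C.A (X.prod (Y.prod Z)))
    rw [zero_smul, zero_smul] at h0
    rw [h0, sub_zero]
    exact Submodule.zero_mem _
  · intro x y _ _ hx hy
    rw [pairPart_add, add_sub_add_comm]
    exact Submodule.add_mem _ hx hy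
  · intro q x _ hx
    rw [pairPart_smul, ← smul_sub]
    exact Submodule.smul_mem _ q hx

/-- A `1`-cycle on a product of three varieties lies in the ideal if its projections to two
factors do. -/
theorem mem_of_three (hI : HasFacts I) (hm : HasModDiag I)
    {z : C.A (X.prod (Y.prod Z))} (hz : C.Deg ((X.prod (Y.prod Z)).dim - 1) z)
    (h12 : C.push (p12 X Y Z) z ∈ I.I _) (h13 : C.push (p13 X Y Z) z ∈ I.I _)
    (h23 : C.push (snd X (Y.prod Z)) z ∈ I.I _) : z ∈ I.I _ := by
  obtain ⟨a, ha, ha1⟩ := exists_point (C := C) X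
  obtain ⟨b, hb, hb1⟩ := exists_point (C := C) Y
  obtain ⟨c, hc, hc1⟩ := exists_point (C := C) Z
  have h := sub_pairPart_mem hI hm ha ha1 hb hb1 hc hc1 hz
  have h1 : C.push (fst X (Y.prod Z)) z ∈ I.I X := by
    have := I.push_mem (fst X Y) h12
    rwa [← C.push_comp, p12, lift_fst] at this
  have h2 : C.push (p2 X Y Z) z ∈ I.I Y := by
    have := I.push_mem (snd X Y) h12
    rwa [← C.push_comp, p12, lift_snd] at this
  have h3 : C.push (p3 X Y Z) z ∈ I.I Z := by
    have := I.push_mem (snd X Z) h13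
    rwa [← C.push_comp, p13, lift_snd] at this
  have h4 : pairPart C a b c z ∈ I.I _ := by
    refine Submodule.sub_mem _ (Submodule.sub_mem _ (Submodule.sub_mem _ (Submodule.add_mem _
      (Submodule.add_mem _ ?_ ?_) ?_) ?_) ?_) ?_
    · exact I.mul_mem' _ (I.pull_mem _ h12)
    · exact I.mul_mem' _ (I.pull_mem _ h13)
    · exact I.ext_right _ h23
    · exact I.ext_left _ h1
    · exact I.ext_right _ (I.ext_left _ h2)
    · exact I.ext_right _ (I.ext_right _ h3)
  have := Submodule.add_mem _ h h4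
  rwa [sub_add_cancel] at this

lemma push_deg_one (f : X ⟶ Y) {z : C.A X} (hz : C.Deg (X.dim - 1) z) :
    C.Deg (Y.dim - 1) (C.push f z) := by
  have h := C.push_mem f hz
  have e : (X.dim : ℤ) - 1 + 1 * (Y.dim - X.dim) = Y.dim - 1 := by ring
  rwa [e] at h

/-- A `1`-cycle on a product of several varieties lies in the ideal if its projections to two
factors do. -/
theorem mem_of_pairs (hI : HasFacts I) (hm : HasModDiag I) (n : ℕ) (X : ℕ → 𝒱.Obj)
    (z : C.A (prodN (n + 1) X)) (hz : C.Deg ((prodN (n + 1) X).dim - 1) z)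
    (h : ∀ i j : Fin (n + 2), i < j → C.push (pr₂ (n + 1) X i j) z ∈ I.I _) :
    z ∈ I.I (prodN (n + 1) X) := by
  induction n generalizing X with
  | zero =>
    have h1 := h 0 1 (by decide)
    have e : pr₂ 1 X 0 1 = (𝟙 ((X 0).prod (X 1)) : (X 0).prod (X 1) ⟶ (X 0).prod (X 1)) := by
      apply prod_ext
      · exact (lift_fst _ _).trans (Category.id_comp (fst (X 0) (X 1))).symm
      · exact (lift_snd _ _).trans ((Category.comp_id _).trans
          (Category.id_comp (snd (X 0) (X 1))).symm)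
    have e2 : C.push (pr₂ 1 X 0 1) z = z :=
      (congrArg (fun f : (X 0).prod (X 1) ⟶ (X 0).prod (X 1) => C.push f z) e).trans
        (C.push_id (X := (X 0).prod (X 1)) z)
    exact mem_of_eq' e2.symm h1
  | succ n ih =>
    -- the first, the second and the remaining factors
    set X' : ℕ → 𝒱.Obj := fun i => Nat.casesOn i (X 0) (fun i => X (i + 2)) with hX'
    set X'' : ℕ → 𝒱.Obj := fun i => X (i + 1) with hX''
    set R : 𝒱.Obj := prodN n (fun i => X (i + 2)) with hR
    have hz' : C.Deg (((X 0).prod ((X 1).prod R)).dim - 1) z := hz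
    refine mem_of_three (X := X 0) (Y := X 1) (Z := R) hI hm hz' ?_ ?_ ?_
    · have h1 := h 0 1 (by rw [Fin.lt_def]; simp)
      have e : (pr₂ (n + 2) X 0 1 : (X 0).prod ((X 1).prod R) ⟶ (X 0).prod (X 1)) =
          p12 (X 0) (X 1) R := by
        apply prod_ext
        · exact (lift_fst _ _).trans (lift_fst _ _).symm
        · exact (lift_snd _ _).trans (lift_snd _ _).symm
      exact mem_of_eq' (congrArg (fun f : (X 0).prod ((X 1).prod R) ⟶ (X 0).prod (X 1) =>
        C.push f z) e.symm) h1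
    · refine ih X' (C.push (p13 (X 0) (X 1) R) z) (push_deg_one _ hz') (fun i j hij => ?_)
      -- the index of the factor in the original product
      have key : ∀ i : Fin (n + 2), ∃ i' : Fin (n + 3), ∃ hi : X' i = X i',
          (p13 (X 0) (X 1) R ≫ (pr (n + 1) X' i : (X 0).prod R ⟶ X' i)) =
            (pr (n + 2) X i' : (X 0).prod ((X 1).prod R) ⟶ X i') ≫ eqToHom hi.symm ∧
            (i' : ℕ) = if (i : ℕ) = 0 then 0 else (i : ℕ) + 1 := by
        intro i
        refine Fin.cases ?_ (fun i => ?_) i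
        · refine ⟨0, rfl, ?_, rfl⟩
          exact (lift_fst _ _).trans (Category.comp_id _).symm
        · refine ⟨i.succ.succ, rfl, ?_, rfl⟩
          have e3 : p13 (X 0) (X 1) R ≫ snd (X 0) R ≫ pr n (fun i => X (i + 2)) i =
              snd (X 0) ((X 1).prod R) ≫ snd (X 1) R ≫ pr n (fun i => X (i + 2)) i := by
            rw [← Category.assoc, ← Category.assoc, p13, lift_snd, p3]
          exact e3.trans (Category.comp_id _).symm
      obtain ⟨i', hi, ei, vi⟩ := key i
      obtain ⟨j', hj, ej, vj⟩ := key j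
      have hij' : i' < j' := by
        rw [Fin.lt_def] at hij ⊢
        rw [vi, vj]
        split_ifs <;> omega
      have h3 := I.push_mem (prodMap (eqToHom hi.symm) (eqToHom hj.symm)) (h i' j' hij')
      have e : (p13 (X 0) (X 1) R ≫ (pr₂ (n + 1) X' i j : (X 0).prod R ⟶ _)) =
          (pr₂ (n + 2) X i' j' : (X 0).prod ((X 1).prod R) ⟶ _) ≫
            prodMap (eqToHom hi.symm) (eqToHom hj.symm) :=
        lift_aux (p13 (X 0) (X 1) R) (pr (n + 1) X' i : (X 0).prod R ⟶ X' i)
          (pr (n + 1) X' j : (X 0).prod R ⟶ X' j) (pr (n + 2) X i') (pr (n + 2) X j') _ _ ei ej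
      have e5 : C.push (pr₂ (n + 1) X' i j) (C.push (p13 (X 0) (X 1) R) z) =
          C.push (prodMap (eqToHom hi.symm) (eqToHom hj.symm)) (C.push (pr₂ (n + 2) X i' j') z) :=
        (C.push_comp (p13 (X 0) (X 1) R) (pr₂ (n + 1) X' i j : (X 0).prod R ⟶ _) z).symm.trans
          ((congrArg (fun f : (X 0).prod ((X 1).prod R) ⟶ (X' i).prod (X' j) => C.push f z) e).trans
            (C.push_comp (pr₂ (n + 2) X i' j' : (X 0).prod ((X 1).prod R) ⟶ _)
              (prodMap (eqToHom hi.symm) (eqToHom hj.symm)) z))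
      exact mem_of_eq' e5 h3
    · refine ih X'' (C.push (snd (X 0) ((X 1).prod R)) z) (push_deg_one _ hz')
        (fun i j hij => ?_)
      have h1 := h i.succ j.succ (Fin.succ_lt_succ_iff.2 hij)
      have e : (pr₂ (n + 2) X i.succ j.succ : (X 0).prod ((X 1).prod R) ⟶ _) =
          snd (X 0) ((X 1).prod R) ≫ (pr₂ (n + 1) X'' i j : (X 1).prod R ⟶ _) :=
        (comp_lift (snd (X 0) ((X 1).prod R)) (pr (n + 1) X'' i : (X 1).prod R ⟶ X'' i)
          (pr (n + 1) X'' j : (X 1).prod R ⟶ X'' j)).symm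
      have e5 : C.push (pr₂ (n + 1) X'' i j) (C.push (snd (X 0) ((X 1).prod R)) z) =
          C.push (pr₂ (n + 2) X i.succ j.succ) z :=
        (C.push_comp (snd (X 0) ((X 1).prod R)) (pr₂ (n + 1) X'' i j : (X 1).prod R ⟶ _)
          z).symm.trans (congrArg (fun f : (X 0).prod ((X 1).prod R) ⟶ (X'' i).prod (X'' j) =>
            C.push f z) e.symm)
      exact mem_of_eq' e5 h1

/-- Push-forwards of numerically trivial `1`-cycles are numerically trivial. -/
lemma NumTrivial.push (f : X ⟶ Y) {z : C.A X} (hz : NumTrivial C (X.dim - 1) z) :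
    NumTrivial C (Y.dim - 1) (C.push f z) := by
  refine ⟨push_deg_one f hz.1, fun b hb => ?_⟩
  rw [← C.proj_right]
  apply hasDegree_push
  apply hz.2
  have e : (X.dim : ℤ) - (X.dim - 1) = Y.dim - (Y.dim - 1) := by ring
  rw [e]
  exact C.pull_mem f hb

/-- **Theorem.** -/
theorem voevodsky_products (hF : HasCurveFacts C) (n : ℕ) (X : ℕ → 𝒱.Obj) :
    (∀ z : C.A (prodN (n + 1) X), C.Deg ((prodN (n + 1) X).dim - 1) z →
      (SmashNilpotent C z ↔
        ∀ i j : Fin (n + 2), i < j → SmashNilpotent C (C.push (pr₂ (n + 1) X i j) z))) ∧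
    ((∀ i j : Fin (n + 2), i < j → VoevodskyOne C ((X i).prod (X j))) →
      VoevodskyOne C (prodN (n + 1) X)) := by
  have hI := hF.hasFacts
  have hm : HasModDiag (smashIdeal C) := fun D hD => hF.modifiedDiagonal D hD
  have h1 : ∀ z : C.A (prodN (n + 1) X), C.Deg ((prodN (n + 1) X).dim - 1) z →
      (SmashNilpotent C z ↔
        ∀ i j : Fin (n + 2), i < j → SmashNilpotent C (C.push (pr₂ (n + 1) X i j) z)) :=
    fun z hz => ⟨fun h i j _ => h.push _, fun h => mem_of_pairs hI hm n X z hz h⟩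
  exact ⟨h1, fun h z hz => (h1 z hz.1).2 fun i j hij => h i j hij _ (hz.push _)⟩

end Pool.Agent.TH862.SN
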