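import Pool.Agent.TH862.SN.CycNum
import Pool.Agent.TH862.SN.DefsTate

/-!
# Tate classes on products, and the injectivity of the cycle class map
-/

open CategoryTheory AlgebraicGeometry

universe u v w

namespace Pool.Agent.TH862.SN

open Pool.Agent.H914 Pool.Agent.H914.VarClass Pool.Agent.H914.VarClass.Obj Pool.Agent.W492.BB
  Pool.Agent.W550.Corr Pool.Agent.TH133

set_option linter.unusedSectionVars false

variable {k : Type u} [Field k] {𝒱 : VarClass k}

variable {C : TheoryData.{u, v, 0} 𝒱 ℚ} [hC : IsChowProj C] {K : Type w} [Field K]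
  [CharZero K] {H : WeilTheoryData.{u, v, w} C K} [hH : IsWeilProj H]
  {X Y Z W E : 𝒱.Obj}

include hC hH

omit hC hH [CharZero K] in
lemma IsTate.comp_mem {T : SubFam H} (hT : IsTate T) {a : H.A (X.prod Y)} {b : H.A (Y.prod Z)}
    (ha : T.Has a) (hb : T.Has b) : T.Has (H.comp a b) :=
  hT.push _ _ _ _ (hT.mul _ _ _ (hT.pull _ _ _ _ hb) (hT.pull _ _ _ _ ha))

/-- Degrees of the action on the cohomology, for arbitrary classes. -/
lemma act_deg {d i : ℤ} {t : H.A (X.prod Y)} (ht : t ∈ H.gr (X.prod Y) (2 * d)) {a : H.A X}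
    (ha : a ∈ H.gr X i) : H.act t a ∈ H.gr Y (i + 2 * (d - X.dim)) := by
  have h3 := H.push_mem (snd X Y) (H.mul_mem ht (H.pull_mem (fst X Y) ha))
  have e : 2 * d + i + 2 * ((Y.dim : ℤ) - ((X.prod Y).dim : ℤ)) = i + 2 * (d - X.dim) := by
    rw [dim_prod]; push_cast; ring
  rw [e] at h3
  exact h3

/-- Degrees of compositions. -/
lemma compH_deg {c d e : ℤ} {a : H.A (X.prod Y)} {b : H.A (Y.prod Z)}
    (ha : a ∈ H.gr (X.prod Y) (2 * c)) (hb : b ∈ H.gr (Y.prod Z) (2 * d)) (he : c + d - Y.dim = e) :
    H.comp a b ∈ H.gr (X.prod Z) (2 * e) := by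
  have h3 := H.push_mem (t13 X Y Z) (H.mul_mem (H.pull_mem (t23 X Y Z) hb)
    (H.pull_mem (fst (X.prod Y) Z) ha))
  have e1 : 2 * d + 2 * c + 2 * (((X.prod Z).dim : ℤ) - (((X.prod Y).prod Z).dim : ℤ)) = 2 * e := by
    rw [← he, dim_prod, dim_prod, dim_prod]; push_cast; ring
  rw [e1] at h3
  exact h3

omit hC hH [CharZero K] in
/-- the span of the classes of cycles of codimension `i` -/
lemma span_map {i j : ℤ} {X Y : 𝒱.Obj} (f : H.A X →ₗ[K] H.A Y) (φ : C.A X → C.A Y)
    (hφ : ∀ z, C.Deg i z → C.Deg j (φ z) ∧ f (H.cl z) = H.cl (φ z)) {t : H.A X}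
    (ht : t ∈ Submodule.span K {c : H.A X | ∃ z : C.A X, C.Deg i z ∧ c = H.cl z}) :
    f t ∈ Submodule.span K {c : H.A Y | ∃ z : C.A Y, C.Deg j z ∧ c = H.cl z} := by
  induction ht using Submodule.span_induction with
  | mem x hx =>
    obtain ⟨z, hz, rfl⟩ := hx
    obtain ⟨h1, h2⟩ := hφ z hz
    exact Submodule.subset_span ⟨φ z, h1, h2⟩
  | zero => rw [map_zero]; exact Submodule.zero_mem _
  | add x y _ _ hx hy => rw [map_add]; exact Submodule.add_mem _ hx hy
  | smul c x _ hx => rw [map_smul]; exact Submodule.smul_mem _ _ hx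

/-- The transposes of a section are a section in the dual degree. -/
lemma section_dual {p j : ℕ} (hE : E.dim = p) {g : C.A (E.prod X)} {s : C.A (X.prod E)}
    (hg : C.Deg X.dim g) (hs : C.Deg p s)
    (hgs : ∀ a : H.A X, H.Deg (2 * X.dim - j) a → H.act (H.cl g) (H.act (H.cl s) a) = a)
    {a : H.A X} (ha : H.Deg j a) : H.act (H.cl (tp C s)) (H.act (H.cl (tp C g)) a) = a := by
  rw [← sub_eq_zero]
  apply H.nondeg
  intro b
  have h2 : (H.tr X) ∘ₗ (LinearMap.mulLeft K
      (H.act (H.cl (tp C s)) (H.act (H.cl (tp C g)) a) - a)) = 0 := by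
    apply ext_gr H
    intro i b hb
    rw [LinearMap.comp_apply, LinearMap.mulLeft_apply, LinearMap.zero_apply, sub_mul, map_sub,
      tr_act' H, tr_act' H]
    by_cases hi : i = 2 * X.dim - j
    · subst hi
      rw [hgs b hb, sub_self]
    · have ha0 : a ∈ H.gr X j := ha
      have h3 : H.act (H.cl g) (H.act (H.cl s) b) ∈ H.gr X i := by
        have h4 := actH_deg (H := H) hs hb
        have h5 := actH_deg (H := H) hg h4
        have e : i + 2 * ((p : ℤ) - X.dim) + 2 * ((X.dim : ℤ) - E.dim) = i := by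
          rw [hE]; ring
        rwa [e] at h5
      rw [tr_zero H (H.mul_mem ha0 h3) (by omega), tr_zero H (H.mul_mem ha0 hb) (by omega),
        sub_self]
  exact LinearMap.congr_fun h2 b

/-- **Theorem.** The Tate conjecture for the cycles of dimension `p` on a product. -/
theorem tate_prod {T : SubFam H} (hT : IsTate T) {p : ℕ} (hK : HasKunneth H)
    (hXs : ∀ j, j < p → HasSection H p j X) (hYs : ∀ j, j ≤ p → HasSection H p j Y)
    (hX : ∀ W : 𝒱.Obj, W.dim = p → TateAlg T p (X.prod W))
    (hY : ∀ W : 𝒱.Obj, W.dim = p → TateAlg T p (W.prod Y)) : TateAlg T p (X.prod Y) := by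
  intro t ht htd
  have htd' : t ∈ H.gr (X.prod Y) (2 * ((X.dim : ℤ) + Y.dim - p)) := by
    have e : 2 * (((X.prod Y).dim : ℤ) - p) = 2 * ((X.dim : ℤ) + Y.dim - p) := by
      rw [dim_prod]; push_cast; ring
    rw [← e]
    exact htd
  choose π hπ1 hπ2 using hK X
  -- the components of `t`
  set τ : ℕ → H.A (X.prod Y) := fun m => H.comp (H.cl (π m)) t with hτ
  have hclπ : ∀ m, H.cl (π m) ∈ H.gr (X.prod X) (2 * X.dim) := fun m => H.cl_mem (hπ1 m)
  have hτT : ∀ m, T.Has (τ m) := fun m => hT.comp_mem (hT.cycles _ _) ht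
  have hτd : ∀ m, τ m ∈ H.gr (X.prod Y) (2 * ((X.dim : ℤ) + Y.dim - p)) := fun m =>
    compH_deg (hclπ m) htd' (by ring)
  have hτa : ∀ m (l : ℤ) (x : H.A X), x ∈ H.gr X l →
      H.act (τ m) x = if l = m then H.act t x else 0 := by
    intro m l x hx
    rw [hτ]
    dsimp only
    rw [H.act_comp, hπ2 m l x hx]
    split_ifs
    · rfl
    · rw [TheoryData.act_map_zero]
  have hsum : t = ∑ m ∈ Finset.range (2 * X.dim + 1), τ m := by
    rw [← sub_eq_zero]
    apply eq_zero_of_act H
    intro x
    have h0 : (H.toTheoryData.actL (t - ∑ m ∈ Finset.range (2 * X.dim + 1), τ m)) =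
        (0 : H.A X →ₗ[K] H.A Y) := by
      apply ext_gr H
      intro l x hx
      rw [TheoryData.actL_apply, LinearMap.zero_apply, TheoryData.act_sub, act_sum,
        Finset.sum_congr rfl fun m _ => hτa m l x hx]
      by_cases h1 : 0 ≤ l ∧ l ≤ 2 * X.dim
      · have h2 : l.toNat ∈ Finset.range (2 * X.dim + 1) := by
          rw [Finset.mem_range]
          omega
        rw [Finset.sum_eq_single l.toNat]
        · rw [if_pos (by omega), sub_self]
        · intro m _ hm
          rw [if_neg (by omega)]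
        · intro h3
          exact absurd h2 h3
      · have h2 : x = 0 := by
          rcases lt_or_ge l 0 with h3 | h3
          · rw [H.gr_neg _ l h3] at hx
            exact (Submodule.mem_bot K).1 hx
          · rw [gr_top H (by omega)] at hx
            exact (Submodule.mem_bot K).1 hx
        rw [h2, TheoryData.act_map_zero, Finset.sum_eq_zero fun m _ => ite_self _, sub_zero]
    have h4 := LinearMap.congr_fun h0 x
    rwa [TheoryData.actL_apply, LinearMap.zero_apply] at h4
  clear hτ
  clear_value τ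
  rw [hsum]
  refine Submodule.sum_mem _ fun m _ => ?_
  have hdimXY : (((X.prod Y).dim : ℤ) - p) = (X.dim : ℤ) + Y.dim - p := by
    rw [dim_prod]; push_cast; ring
  rcases lt_or_ge (2 * p) m with hm2 | hm2
  · -- the component is zero
    have h0 : τ m = 0 := by
      apply eq_zero_of_act H
      intro x
      have h0 : (H.toTheoryData.actL (τ m)) = (0 : H.A X →ₗ[K] H.A Y) := by
        apply ext_gr H
        intro l x hx
        rw [TheoryData.actL_apply, LinearMap.zero_apply]
        by_cases hl : l = m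
        · have h3 := act_deg (hτd m) hx
          rw [gr_top H (by omega)] at h3
          exact (Submodule.mem_bot K).1 h3
        · rw [hτa m l x hx, if_neg hl]
      have h4 := LinearMap.congr_fun h0 x
      rwa [TheoryData.actL_apply, LinearMap.zero_apply] at h4
    rw [h0]
    exact Submodule.zero_mem _
  by_cases hmp : p ≤ m
  · obtain ⟨E, g, s, hE, hg, hs, hgs⟩ := hYs (2 * p - m) (by omega)
    have hu1 : T.Has (H.comp (τ m) (H.cl s)) := hT.comp_mem (hτT m) (hT.cycles _ _)
    have hu2 : H.comp (τ m) (H.cl s) ∈ H.gr (X.prod E) (2 * (((X.prod E).dim : ℤ) - p)) :=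
      compH_deg (hτd m) (H.cl_mem hs) (by rw [dim_prod, hE]; push_cast; ring)
    have hu := hX E hE _ hu1 hu2
    have heq : τ m = H.comp (H.comp (τ m) (H.cl s)) (H.cl g) := by
      rw [← sub_eq_zero]
      apply eq_zero_of_act H
      intro x
      have h0 : (H.toTheoryData.actL (τ m - H.comp (H.comp (τ m) (H.cl s)) (H.cl g))) =
          (0 : H.A X →ₗ[K] H.A Y) := by
        apply ext_gr H
        intro l x hx
        rw [TheoryData.actL_apply, LinearMap.zero_apply, TheoryData.act_sub, H.act_comp,
          H.act_comp]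
        by_cases hl : l = m
        · have h3 := act_deg (hτd m) hx
          have e : l + 2 * ((X.dim : ℤ) + Y.dim - p - X.dim) = 2 * Y.dim - ((2 * p - m : ℕ) : ℤ) := by
            rw [hl, Nat.cast_sub hm2]; push_cast; ring
          rw [e] at h3
          rw [hgs _ h3, sub_self]
        · rw [hτa m l x hx, if_neg hl, TheoryData.act_map_zero, TheoryData.act_map_zero, sub_self]
      have h4 := LinearMap.congr_fun h0 x
      rwa [TheoryData.actL_apply, LinearMap.zero_apply] at h4
    rw [heq]
    refine span_map (i := ((X.prod E).dim : ℤ) - p) ((compL H.toTheoryData).flip (H.cl g))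
      (fun z => C.comp z g) (fun z hz => ⟨?_, ?_⟩) hu
    · refine comp_deg hz hg ?_
      rw [hdimXY, dim_prod, hE]; push_cast; ring
    · rw [LinearMap.flip_apply, compL_apply, cl_comp H]
  · obtain ⟨E, g, s, hE, hg, hs, hgs⟩ := hXs m (by omega)
    have hsp : C.Deg p (tp C s) := tp_mem C hs
    have hgp : C.Deg X.dim (tp C g) := tp_mem C hg
    have hu1 : T.Has (H.comp (H.cl (tp C s)) (τ m)) := hT.comp_mem (hT.cycles _ _) (hτT m)
    have hu2 : H.comp (H.cl (tp C s)) (τ m) ∈ H.gr (E.prod Y) (2 * (((E.prod Y).dim : ℤ) - p)) :=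
      compH_deg (H.cl_mem hsp) (hτd m) (by rw [dim_prod, hE]; push_cast; ring)
    have hu := hY E hE _ hu1 hu2
    have heq : τ m = H.comp (H.cl (tp C g)) (H.comp (H.cl (tp C s)) (τ m)) := by
      rw [← sub_eq_zero]
      apply eq_zero_of_act H
      intro x
      have h0 : (H.toTheoryData.actL (τ m - H.comp (H.cl (tp C g)) (H.comp (H.cl (tp C s))
          (τ m)))) = (0 : H.A X →ₗ[K] H.A Y) := by
        apply ext_gr H
        intro l x hx
        rw [TheoryData.actL_apply, LinearMap.zero_apply, TheoryData.act_sub, H.act_comp,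
          H.act_comp]
        by_cases hl : l = m
        · subst hl
          rw [section_dual hE hg hs hgs hx, sub_self]
        · have h3 : H.act (H.cl (tp C s)) (H.act (H.cl (tp C g)) x) ∈ H.gr X l := by
            have h4 := actH_deg (H := H) hgp hx
            have h5 := actH_deg (H := H) hsp h4
            have e : l + 2 * ((X.dim : ℤ) - X.dim) + 2 * ((p : ℤ) - E.dim) = l := by
              rw [hE]; ring
            rwa [e] at h5
          rw [hτa m l x hx, if_neg hl, hτa m l _ h3, if_neg hl, sub_self]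
      have h4 := LinearMap.congr_fun h0 x
      rwa [TheoryData.actL_apply, LinearMap.zero_apply] at h4
    rw [heq]
    refine span_map (i := ((E.prod Y).dim : ℤ) - p) (compL H.toTheoryData (H.cl (tp C g)))
      (fun z => C.comp (tp C g) z) (fun z hz => ⟨?_, ?_⟩) hu
    · refine comp_deg hgp hz ?_
      rw [hdimXY, dim_prod, hE]; push_cast; ring
    · rw [compL_apply, cl_comp H]

omit hH in
lemma oneH_ne_zero (H : WeilTheoryData.{u, v, w} C K) [hH : IsWeilProj H] (X : 𝒱.Obj) :
    (1 : H.A X) ≠ 0 := by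
  intro h
  obtain ⟨e, he, he1⟩ := exists_hasDegree_one H X
  have h0 : H.cl e = 0 := by rw [← mul_one (H.cl e), h, mul_zero]
  exact one_ne_zero (hasDegree_unique H he1 (hasDegree_zero_of_cl (H := H) he h0))

/-- The degree in terms of the cohomology. -/
lemma degH {x : C.A X} {q : ℚ} (hx : HasDegree C x q) :
    H.push (snd X X) (H.pull (fst X X) (H.cl x)) = (q : K) • (1 : H.A X) := by
  rw [← H.cl_pull, ← H.cl_push, (hx X).1, cl_rat_smul, map_one]

/-- If rational and numerical equivalence agree, then the cycle class map is injective on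
`CH_p(X) ⊗ K`. -/
theorem clInjective_of_numZero {p : ℕ} (h : NumZero C p X) : ClInjective H p X := by
  classical
  intro n z hz hli
  -- the vectors of degrees
  let S : Set (Fin n → ℚ) := {v | ∃ b : C.A X, C.Deg (X.dim - (X.dim - p)) b ∧
    ∀ i, HasDegree C (z i * b) (v i)}
  have hex : ∀ b : C.A X, C.Deg (X.dim - (X.dim - p)) b → ∃ v : Fin n → ℚ,
      ∀ i, HasDegree C (z i * b) (v i) := by
    intro b hb
    have h1 : ∀ i, ∃ q, HasDegree C (z i * b) q := fun i => by
      apply exists_hasDegree
      have h2 := C.mul_mem (hz i) hb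
      have e : (X.dim : ℤ) - p + (X.dim - (X.dim - p)) = X.dim := by ring
      rwa [e] at h2
    choose v hv using h1
    exact ⟨v, hv⟩
  have htop : Submodule.span ℚ S = ⊤ := by
    by_contra hne
    obtain ⟨φ, hφ, hφS⟩ := Submodule.exists_le_ker_of_lt_top _ (lt_top_iff_ne_top.2 hne)
    have hφv : ∀ v : Fin n → ℚ, φ v = ∑ i, φ (Pi.single i 1) * v i := by
      intro v
      conv_lhs => rw [← Finset.univ_sum_single v, map_sum]
      refine Finset.sum_congr rfl fun i _ => ?_
      have e : Pi.single i (v i) = v i • (Pi.single i (1 : ℚ) : Fin n → ℚ) := by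
        rw [← Pi.single_smul, smul_eq_mul, mul_one]
      rw [e, map_smul, smul_eq_mul, mul_comm]
    have h0 : ∑ i, φ (Pi.single i 1) • z i = 0 := by
      apply h
      refine ⟨Submodule.sum_mem _ fun i _ => Submodule.smul_mem _ _ (hz i), fun b hb => ?_⟩
      obtain ⟨v, hv⟩ := hex b hb
      have h1 : HasDegree C (∑ i, φ (Pi.single i 1) • (z i * b)) (∑ i, φ (Pi.single i 1) * v i) :=
        hasDegree_sum _ fun i _ => hasDegree_smul _ (hv i)
      rw [← hφv, LinearMap.mem_ker.1 (hφS (Submodule.subset_span ⟨b, hb, hv⟩))] at h1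
      rw [Finset.sum_mul]
      have e : ∀ i, φ (Pi.single i 1) • z i * b = φ (Pi.single i 1) • (z i * b) := fun i =>
        smul_mul_assoc _ _ _
      rw [Finset.sum_congr rfl fun i _ => e i]
      exact h1
    have h1 := Fintype.linearIndependent_iff.1 hli _ h0
    apply hφ
    apply LinearMap.ext
    intro v
    rw [hφv, LinearMap.zero_apply]
    exact Finset.sum_eq_zero fun i _ => by rw [h1 i, zero_mul]
  rw [Fintype.linearIndependent_iff]
  intro c hc
  -- the relation holds for all vectors of degrees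
  let L : (Fin n → ℚ) →ₗ[ℚ] K :=
    { toFun := fun v => ∑ i, c i * (v i : K)
      map_add' := fun v w => by
        rw [← Finset.sum_add_distrib]
        refine Finset.sum_congr rfl fun i _ => ?_
        rw [Pi.add_apply, Rat.cast_add, mul_add]
      map_smul' := fun q v => by
        rw [RingHom.id_apply, Finset.smul_sum]
        refine Finset.sum_congr rfl fun i _ => ?_
        rw [Pi.smul_apply, smul_eq_mul, Rat.cast_mul, Rat.smul_def]
        ring }
  have hL : L = 0 := by
    have h1 : Submodule.span ℚ S ≤ LinearMap.ker L := by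
      rw [Submodule.span_le]
      rintro v ⟨b, hb, hv⟩
      rw [SetLike.mem_coe, LinearMap.mem_ker]
      have h2 : ∑ i, c i • H.cl (z i * b) = 0 := by
        have e : ∀ i, c i • H.cl (z i * b) = (c i • H.cl (z i)) * H.cl b := fun i => by
          rw [map_mul, smul_mul_assoc]
        rw [Finset.sum_congr rfl fun i _ => e i, ← Finset.sum_mul, hc, zero_mul]
      have h3 := congrArg (fun y => H.push (snd X X) (H.pull (fst X X) y)) h2
      simp only [map_sum, map_zero] at h3
      have h4 : ∀ i, H.push (snd X X) (H.pull (fst X X) (c i • H.cl (z i * b))) =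
          (c i * (v i : K)) • (1 : H.A X) := fun i => by
        rw [map_smul, map_smul, degH (H := H) (hv i), smul_smul]
      rw [Finset.sum_congr rfl fun i _ => h4 i, ← Finset.sum_smul] at h3
      exact (smul_eq_zero.1 h3).resolve_right (oneH_ne_zero H X)
    rw [htop, top_le_iff, LinearMap.ker_eq_top] at h1
    exact h1
  intro i
  have h1 := LinearMap.congr_fun hL (Pi.single i 1)
  have h2 : L (Pi.single i 1) = c i := by
    change ∑ j, c j * (((Pi.single i (1 : ℚ) : Fin n → ℚ) j : ℚ) : K) = c i
    rw [Finset.sum_eq_single i]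
    · rw [Pi.single_eq_same, Rat.cast_one, mul_one]
    · intro j _ hj
      rw [Pi.single_eq_of_ne hj, Rat.cast_zero, mul_zero]
    · intro h3
      exact absurd (Finset.mem_univ i) h3
  rw [h2, LinearMap.zero_apply] at h1
  exact h1

/-- The Tate conjecture does not depend on the order of the factors. -/
theorem TateAlg.swap {T : SubFam H} (hT : IsTate T) {p : ℕ} (h : TateAlg T p (X.prod Y)) :
    TateAlg T p (Y.prod X) := by
  intro t ht htd
  have hdim : ((Y.prod X).dim : ℤ) - p = (X.prod Y).dim - p := by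
    rw [dim_prod, dim_prod, add_comm]
  have h1 : T.Has (H.pull (sw X Y) t) := hT.pull _ _ _ _ ht
  have h2 : H.pull (sw X Y) t ∈ H.gr (X.prod Y) (2 * ((X.prod Y).dim - p)) := by
    rw [← hdim]
    exact H.pull_mem _ htd
  have h3 := h _ h1 h2
  have h4 : H.pull (sw Y X) (H.pull (sw X Y) t) = t := tp_tp H.toTheoryData t
  rw [← h4]
  refine span_map (H.pull (sw Y X)) (fun z => C.pull (sw Y X) z) (fun z hz => ⟨?_, ?_⟩) h3
  · rw [hdim]
    exact C.pull_mem _ hz
  · exact (H.cl_pull _ _).symm

end Pool.Agent.TH862.SN
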