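import Pool.Agent.TH862.SN.Ideal
import Pool.Agent.TH133.Pg

/-!
# One-cycles on products of three varieties modulo an ideal of cycles
-/

open CategoryTheory AlgebraicGeometry

universe u v w

namespace Pool.Agent.TH862.SN

open Pool.Agent.H914 Pool.Agent.H914.VarClass Pool.Agent.H914.VarClass.Obj Pool.Agent.W492.BB
  Pool.Agent.W550.Corr Pool.Agent.TH133

set_option linter.unusedSectionVars false

variable {k : Type u} [Field k] {𝒱 : VarClass k}

/-- A family of subspaces of the Chow groups which is stable under push-forwards, pull-backs and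
products with arbitrary classes. -/
structure CycleIdeal (C : TheoryData.{u, v, 0} 𝒱 ℚ) where
  /-- the subspaces -/
  I : ∀ X : 𝒱.Obj, Submodule ℚ (C.A X)
  push_mem : ∀ {X Y : 𝒱.Obj} (f : X ⟶ Y) {a : C.A X}, a ∈ I X → C.push f a ∈ I Y
  pull_mem : ∀ {X Y : 𝒱.Obj} (f : X ⟶ Y) {a : C.A Y}, a ∈ I Y → C.pull f a ∈ I X
  mul_mem : ∀ {X : 𝒱.Obj} (b : C.A X) {a : C.A X}, a ∈ I X → b * a ∈ I X

/-- The ideal of smash-nilpotent classes. -/
noncomputable def smashIdeal (C : TheoryData.{u, v, 0} 𝒱 ℚ) [hC : IsChowProj C] :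
    CycleIdeal C where
  I X :=
    { carrier := {a | SmashNilpotent C a}
      add_mem' := fun ha hb => SmashNilpotent.add ha hb
      zero_mem' := smashNilpotent_zero
      smul_mem' := fun q a ha => by
        have h := SmashNilpotent.mul_left (algebraMap ℚ (C.A X) q) ha
        rwa [← Algebra.smul_def] at h }
  push_mem f _ ha := SmashNilpotent.push f ha
  pull_mem f _ ha := SmashNilpotent.pull f ha
  mul_mem b _ ha := SmashNilpotent.mul_left b ha

lemma mem_smashIdeal {C : TheoryData.{u, v, 0} 𝒱 ℚ} [hC : IsChowProj C] {X : 𝒱.Obj} {a : C.A X} :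
    a ∈ (smashIdeal C).I X ↔ SmashNilpotent C a := Iff.rfl

/-- The facts on the ideal `I` and on cycles used below. -/
structure HasFacts {C : TheoryData.{u, v, 0} 𝒱 ℚ} (I : CycleIdeal C) : Prop where
  oneCycles : ∀ (X : 𝒱.Obj) (z : C.A X), C.Deg (X.dim - 1) z →
    z ∈ Submodule.span ℚ {y : C.A X | ∃ (D : 𝒱.Obj) (f : D ⟶ X), D.dim = 1 ∧ y = C.push f 1}
  zeroCycles : ∀ (X : 𝒱.Obj) (x : C.A X), C.Deg X.dim x → HasDegree C x 0 → x ∈ I.I X

lemma HasCurveFacts.hasFacts {C : TheoryData.{u, v, 0} 𝒱 ℚ} [hC : IsChowProj C]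
    (h : HasCurveFacts C) : HasFacts (smashIdeal C) where
  oneCycles := h.oneCycles
  zeroCycles := h.zeroCycles

section chow

variable {C : TheoryData.{u, v, 0} 𝒱 ℚ} [hC : IsChowProj C] {I : CycleIdeal C}
  {X Y Z W X' Y' Z' : 𝒱.Obj}

include hC

lemma CycleIdeal.mul_mem' (I : CycleIdeal C) (b : C.A X) {a : C.A X} (ha : a ∈ I.I X) :
    a * b ∈ I.I X := by
  rw [ch_comm C a b]
  exact I.mul_mem b ha

lemma CycleIdeal.ext_left (I : CycleIdeal C) {a : C.A X} (b : C.A Y) (ha : a ∈ I.I X) :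
    C.ext a b ∈ I.I (X.prod Y) := I.mul_mem' _ (I.pull_mem _ ha)

lemma CycleIdeal.ext_right (I : CycleIdeal C) (a : C.A X) {b : C.A Y} (hb : b ∈ I.I Y) :
    C.ext a b ∈ I.I (X.prod Y) := I.mul_mem _ (I.pull_mem _ hb)

lemma hasDegree_push (f : X ⟶ Y) {x : C.A X} {q : ℚ} (hx : HasDegree C x q) :
    HasDegree C (C.push f x) q := by
  intro Z
  constructor
  · change C.push (snd Y Z) (C.pull (fst Y Z) (C.push f x)) = _
    rw [C.base_fst, ← C.push_comp, prodMap_snd, Category.comp_id]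
    exact (hx Z).1
  · change C.push (fst Z Y) (C.pull (snd Z Y) (C.push f x)) = _
    rw [C.base_snd, ← C.push_comp, prodMap_fst, Category.comp_id]
    exact (hx Z).2

lemma push_mem_top (f : X ⟶ Y) {x : C.A X} (hx : C.Deg X.dim x) :
    C.Deg Y.dim (C.push f x) := by
  have h := C.push_mem f hx
  have e : (X.dim : ℤ) + 1 * (Y.dim - X.dim) = Y.dim := by ring
  rwa [e] at h

/-- Two zero-cycles of degree one are congruent modulo the ideal. -/
lemma sub_mem_of_degree (hI : HasFacts I) {x y : C.A X} (hx : C.Deg X.dim x)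
    (hy : C.Deg X.dim y) (hx1 : HasDegree C x 1) (hy1 : HasDegree C y 1) : x - y ∈ I.I X := by
  apply hI.zeroCycles X _ (Submodule.sub_mem _ hx hy)
  have h := hasDegree_add hx1 (hasDegree_smul (-1) hy1)
  have e : (1 : ℚ) + -1 * 1 = 0 := by norm_num
  rw [e] at h
  have e2 : x + (-1 : ℚ) • y = x - y := by rw [neg_smul, one_smul, sub_eq_add_neg]
  rwa [e2] at h

lemma exists_point (X : 𝒱.Obj) : ∃ o : C.A X, C.Deg X.dim o ∧ HasDegree C o 1 := by
  obtain ⟨a, ha, h1, h2⟩ := IsChow.exists_deg_one (C := C) X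
  refine ⟨a, ha, fun Z => ⟨?_, ?_⟩⟩
  · rw [one_smul]
    exact h2 Z
  · rw [one_smul]
    exact h1 Z

/-- `X × (Y × Z) ⟶ (X × Z) × Y`. -/
noncomputable def sJ (X Y Z : 𝒱.Obj) : X.prod (Y.prod Z) ⟶ (X.prod Z).prod Y :=
  Obj.lift (p13 X Y Z) (p2 X Y Z)

/-- `(X × Z) × Y ⟶ X × (Y × Z)`. -/
noncomputable def sI (X Y Z : 𝒱.Obj) : (X.prod Z).prod Y ⟶ X.prod (Y.prod Z) :=
  Obj.lift (fst (X.prod Z) Y ≫ fst X Z) (Obj.lift (snd (X.prod Z) Y) (fst (X.prod Z) Y ≫ snd X Z))

omit hC in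
lemma sI_sJ : sI X Y Z ≫ sJ X Y Z = 𝟙 _ := by
  apply prod_ext
  · apply prod_ext <;> simp [sI, sJ, p13, p2, p3, comp_lift]
  · simp [sI, sJ, p13, p2, p3, comp_lift]

omit hC in
lemma sJ_sI : sJ X Y Z ≫ sI X Y Z = 𝟙 _ := by
  apply prod_ext
  · simp [sI, sJ, p13, p2, p3, comp_lift]
  · apply prod_ext <;> simp [sI, sJ, p13, p2, p3, comp_lift]

lemma pull_aJ_ext (a : C.A (X.prod Y)) (b : C.A Z) :
    C.pull (aJ X Y Z) (C.ext a b) = C.pull (p12 X Y Z) a * C.pull (p3 X Y Z) b := by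
  have e1 : aJ X Y Z ≫ fst (X.prod Y) Z = p12 X Y Z := lift_fst _ _
  have e2 : aJ X Y Z ≫ snd (X.prod Y) Z = p3 X Y Z := lift_snd _ _
  rw [TheoryData.ext, map_mul, ← C.pull_comp, ← C.pull_comp, e1, e2]

lemma pull_sJ_ext (a : C.A (X.prod Z)) (b : C.A Y) :
    C.pull (sJ X Y Z) (C.ext a b) = C.pull (p13 X Y Z) a * C.pull (p2 X Y Z) b := by
  have e1 : sJ X Y Z ≫ fst (X.prod Z) Y = p13 X Y Z := lift_fst _ _
  have e2 : sJ X Y Z ≫ snd (X.prod Z) Y = p2 X Y Z := lift_snd _ _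
  rw [TheoryData.ext, map_mul, ← C.pull_comp, ← C.pull_comp, e1, e2]

lemma push_E12 (f : X ⟶ X') (g : Y ⟶ Y') (h : Z ⟶ Z') (a : C.A (X.prod Y)) (b : C.A Z) :
    C.push (prodMap f (prodMap g h)) (C.pull (p12 X Y Z) a * C.pull (p3 X Y Z) b) =
      C.pull (p12 X' Y' Z') (C.push (prodMap f g) a) * C.pull (p3 X' Y' Z') (C.push h b) := by
  have e : aI X Y Z ≫ prodMap f (prodMap g h) = prodMap (prodMap f g) h ≫ aI X' Y' Z' := by
    apply prod_ext
    · simp [aI, comp_lift, prodMap]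
    · apply prod_ext <;> simp [aI, comp_lift, prodMap]
  rw [← pull_aJ_ext, ← pull_aJ_ext, pull_iso C (aJ X Y Z) (aI X Y Z) aJ_aI aI_aJ,
    pull_iso C (aJ X' Y' Z') (aI X' Y' Z') aJ_aI aI_aJ, ← C.push_comp, e, C.push_comp, push_ext]

lemma push_E13 (f : X ⟶ X') (g : Y ⟶ Y') (h : Z ⟶ Z') (a : C.A (X.prod Z)) (b : C.A Y) :
    C.push (prodMap f (prodMap g h)) (C.pull (p13 X Y Z) a * C.pull (p2 X Y Z) b) =
      C.pull (p13 X' Y' Z') (C.push (prodMap f h) a) * C.pull (p2 X' Y' Z') (C.push g b) := by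
  have e : sI X Y Z ≫ prodMap f (prodMap g h) = prodMap (prodMap f h) g ≫ sI X' Y' Z' := by
    apply prod_ext
    · simp [sI, comp_lift, prodMap]
    · apply prod_ext <;> simp [sI, comp_lift, prodMap]
  rw [← pull_sJ_ext, ← pull_sJ_ext, pull_iso C (sJ X Y Z) (sI X Y Z) sJ_sI sI_sJ,
    pull_iso C (sJ X' Y' Z') (sI X' Y' Z') sJ_sI sI_sJ, ← C.push_comp, e, C.push_comp, push_ext]

lemma push_dg (f : W ⟶ X) (g : W ⟶ Y) :
    C.push (prodMap f g) (dg C W) = C.push (Obj.lift f g) 1 := by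
  rw [dg, TheoryData.graph, ← C.push_comp]
  congr 2
  apply prod_ext <;> simp

lemma modDiag_eq {D : 𝒱.Obj} (o : C.A D) : modDiag C D o =
    C.push (Obj.lift (𝟙 D) (Obj.lift (𝟙 D) (𝟙 D))) 1
      - C.pull (p12 D D D) (dg C D) * C.pull (p3 D D D) o
      - C.pull (p13 D D D) (dg C D) * C.pull (p2 D D D) o
      - C.ext o (dg C D)
      + C.ext 1 (C.ext o o) + C.ext o (C.ext 1 o) + C.ext o (C.ext o 1) := by
  rw [modDiag, pairDiag, lineDiag]
  abel

/-- The part of a class on `X × (Y × Z)` determined by its projections to two factors. -/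
noncomputable def pairPart (C : TheoryData.{u, v, 0} 𝒱 ℚ) (a : C.A X) (b : C.A Y) (c : C.A Z)
    (z : C.A (X.prod (Y.prod Z))) : C.A (X.prod (Y.prod Z)) :=
  C.pull (p12 X Y Z) (C.push (p12 X Y Z) z) * C.pull (p3 X Y Z) c
    + C.pull (p13 X Y Z) (C.push (p13 X Y Z) z) * C.pull (p2 X Y Z) b
    + C.ext a (C.push (snd X (Y.prod Z)) z)
    - C.ext (C.push (fst X (Y.prod Z)) z) (C.ext b c)
    - C.ext a (C.ext (C.push (p2 X Y Z) z) c)
    - C.ext a (C.ext b (C.push (p3 X Y Z) z))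

lemma pairPart_add (a : C.A X) (b : C.A Y) (c : C.A Z) (z z' : C.A (X.prod (Y.prod Z))) :
    pairPart C a b c (z + z') = pairPart C a b c z + pairPart C a b c z' := by
  simp only [pairPart, TheoryData.ext, map_add, add_mul, mul_add]
  abel

lemma pairPart_smul (a : C.A X) (b : C.A Y) (c : C.A Z) (q : ℚ) (z : C.A (X.prod (Y.prod Z))) :
    pairPart C a b c (q • z) = q • pairPart C a b c z := by
  simp only [pairPart, TheoryData.ext, map_smul, smul_mul_assoc, mul_smul_comm, smul_sub, smul_add]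

/-- The key step: the image of a curve in a product of three varieties. -/
lemma curve_sub_pairPart (hI : HasFacts I) {D : 𝒱.Obj} (hD : D.dim = 1) {o : C.A D}
    (ho : C.Deg 1 o) (ho1 : HasDegree C o 1) (hm : modDiag C D o ∈ I.I _) {a : C.A X}
    (ha : C.Deg X.dim a) (ha1 : HasDegree C a 1) {b : C.A Y} (hb : C.Deg Y.dim b)
    (hb1 : HasDegree C b 1) {c : C.A Z} (hc : C.Deg Z.dim c) (hc1 : HasDegree C c 1)
    (F : D ⟶ X.prod (Y.prod Z)) :
    C.push F 1 - pairPart C a b c (C.push F 1) ∈ I.I (X.prod (Y.prod Z)) := by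
  have ho' : C.Deg D.dim o := by
    rw [hD]
    exact_mod_cast ho
  set f := F ≫ fst X (Y.prod Z) with hf
  set g := F ≫ p2 X Y Z with hg
  set h := F ≫ p3 X Y Z with hh
  have eF : F = Obj.lift f (Obj.lift g h) := by
    apply prod_ext
    · rw [lift_fst]
    · rw [lift_snd]
      apply prod_ext
      · rw [lift_fst, hg, p2, Category.assoc]
      · rw [lift_snd, hh, p3, Category.assoc]
  have e12 : F ≫ p12 X Y Z = Obj.lift f g := by
    apply prod_ext <;> simp [p12, hf, hg]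
  have e13 : F ≫ p13 X Y Z = Obj.lift f h := by
    apply prod_ext <;> simp [p13, hf, hh]
  have e23 : F ≫ snd X (Y.prod Z) = Obj.lift g h := by
    apply prod_ext <;> simp [hg, hh, p2, p3]
  have m1 : C.push f o - a ∈ I.I X :=
    sub_mem_of_degree hI (push_mem_top f ho') ha (hasDegree_push f ho1) ha1
  have m2 : C.push g o - b ∈ I.I Y :=
    sub_mem_of_degree hI (push_mem_top g ho') hb (hasDegree_push g ho1) hb1
  have m3 : C.push h o - c ∈ I.I Z :=
    sub_mem_of_degree hI (push_mem_top h ho') hc (hasDegree_push h ho1) hc1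
  have h0 := I.push_mem (prodMap f (prodMap g h)) hm
  have e0 : Obj.lift (𝟙 D) (Obj.lift (𝟙 D) (𝟙 D)) ≫ prodMap f (prodMap g h) = F := by
    rw [eF]
    apply prod_ext
    · simp
    · apply prod_ext <;> simp
  rw [modDiag_eq, map_add, map_add, map_add, map_sub, map_sub, map_sub, ← C.push_comp, e0, push_E12,
    push_E13, push_ext, push_ext, push_ext, push_ext, push_ext, push_ext, push_ext, push_dg,
    push_dg, push_dg] at h0
  rw [pairPart, ← C.push_comp, ← C.push_comp, ← C.push_comp, ← C.push_comp, ← C.push_comp,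
    ← C.push_comp, e12, e13, e23, ← hf, ← hg, ← hh]
  set F1 := C.push F 1
  set d12 := C.pull (p12 X Y Z) (C.push (Obj.lift f g) 1)
  set d13 := C.pull (p13 X Y Z) (C.push (Obj.lift f h) 1)
  set d23 := C.push (Obj.lift g h) 1
  -- the corrections
  have k3 : d12 * C.pull (p3 X Y Z) (C.push h o - c) ∈ I.I _ := I.mul_mem _ (I.pull_mem _ m3)
  have k2 : d13 * C.pull (p2 X Y Z) (C.push g o - b) ∈ I.I _ := I.mul_mem _ (I.pull_mem _ m2)
  have k1 : C.ext (C.push f o - a) d23 ∈ I.I _ := I.ext_left _ m1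
  have l1 : C.ext (C.push f 1) (C.ext (C.push g o - b) (C.push h o)) ∈ I.I _ :=
    I.ext_right _ (I.ext_left _ m2)
  have l1' : C.ext (C.push f 1) (C.ext b (C.push h o - c)) ∈ I.I _ :=
    I.ext_right _ (I.ext_right _ m3)
  have l2 : C.ext (C.push f o - a) (C.ext (C.push g 1) (C.push h o)) ∈ I.I _ := I.ext_left _ m1
  have l2' : C.ext a (C.ext (C.push g 1) (C.push h o - c)) ∈ I.I _ :=
    I.ext_right _ (I.ext_right _ m3)
  have l3 : C.ext (C.push f o - a) (C.ext (C.push g o) (C.push h 1)) ∈ I.I _ := I.ext_left _ m1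
  have l3' : C.ext a (C.ext (C.push g o - b) (C.push h 1)) ∈ I.I _ :=
    I.ext_right _ (I.ext_left _ m2)
  have key := Submodule.sub_mem _ (Submodule.sub_mem _ (Submodule.sub_mem _ (Submodule.add_mem _
    (Submodule.add_mem _ (Submodule.add_mem _ h0 k3) k2) k1) (Submodule.add_mem _ l1 l1'))
      (Submodule.add_mem _ l2 l2')) (Submodule.add_mem _ l3 l3')
  convert key using 1
  simp only [TheoryData.ext, map_sub, map_mul, mul_sub, sub_mul]
  abel

end chow

end Pool.Agent.TH862.SN
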